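import Pool.Agent.H845.AC.MF

set_option autoImplicit false
set_option linter.unusedSectionVars false
set_option linter.unusedSimpArgs false
set_option linter.unusedVariables false

/-!
# Forms with some fixed variables
-/

open Module Function TensorProduct

noncomputable section

namespace Pool.Agent.H845.AC

open Pool.Agent.Y102 Pool.Agent.W516.DR Pool.Agent.H204R3.GP Pool.Agent.W516.KC
  Pool.Agent.H204R3.SP Pool.Agent.R912 Pool.Agent.W5h25.AS Pool.Agent.H845.CM

section Fill

variable {U : Type} [AddCommGroup U] [Module ℂ U] {κ : Type} [Fintype κ] [DecidableEq κ]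
  {W : Submodule ℂ U} {p : κ → Prop} [DecidablePred p]

/-- fill in the missing variables -/
def fill (W : Submodule ℂ U) (p : κ → Prop) [DecidablePred p] (c : κ → U)
    (u : {k // p k} → W) : κ → U := fun k => if h : p k then ((u ⟨k, h⟩ : W) : U) else c k

theorem fill_pos (c : κ → U) (u : {k // p k} → W) {k : κ} (h : p k) :
    fill W p c u k = ((u ⟨k, h⟩ : W) : U) := dif_pos h

theorem fill_neg (c : κ → U) (u : {k // p k} → W) {k : κ} (h : ¬ p k) :
    fill W p c u k = c k := dif_neg h

theorem fill_update (inst : DecidableEq {k // p k}) (c : κ → U) (u : {k // p k} → W)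
    (k : {k // p k}) (w : W) :
    fill W p c (update u k w) = update (fill W p c u) k.1 (w : U) := by
  funext l
  by_cases hl : l = k.1
  · have h1 : fill W p c (update u k w) k.1 = w := by
      rw [fill_pos _ _ k.2]
      congr 1
      exact update_self (a := k) (f := u) w
    rw [hl, update_self, h1]
  · rw [update_of_ne hl]
    by_cases h : p l
    · rw [fill_pos _ _ h, fill_pos _ _ h, update_of_ne]
      intro h'
      exact hl (congrArg Subtype.val h')
    · rw [fill_neg _ _ h, fill_neg _ _ h]

/-- the form in the remaining variables -/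
def cnt (W : Submodule ℂ U) (p : κ → Prop) [DecidablePred p] (c : κ → U)
    (Ψ : MultilinearMap ℂ (fun _ : κ => U) ℂ) : MultilinearMap ℂ (fun _ : {k // p k} => W) ℂ where
  toFun u := Ψ (fill W p c u)
  map_update_add' := by
    intro inst u k x y
    rw [fill_update, fill_update, fill_update, Submodule.coe_add, MultilinearMap.map_update_add]
  map_update_smul' := by
    intro inst u k r x
    rw [fill_update, fill_update, Submodule.coe_smul, MultilinearMap.map_update_smul]

theorem cnt_apply (c : κ → U) (Ψ : MultilinearMap ℂ (fun _ : κ => U) ℂ) (u : {k // p k} → W) :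
    cnt W p c Ψ u = Ψ (fill W p c u) := rfl

theorem alt_cnt (c : κ → U) {Ψ : MultilinearMap ℂ (fun _ : κ => U) ℂ} (h : Alt Ψ) :
    Alt (cnt W p c Ψ) := by
  intro u i j hij huv
  rw [cnt_apply]
  refine h _ i.1 j.1 (fun e => hij (Subtype.ext e)) ?_
  rw [fill_pos _ _ i.2, fill_pos _ _ j.2]
  exact congrArg Subtype.val huv

/-- The derivation of the form with fixed variables. -/
theorem DD_fill {c : κ → U} (Ψ : MultilinearMap ℂ (fun _ : κ => U) ℂ) {X : Module.End ℂ U}
    {Y : Module.End ℂ W} (hY : ∀ w : W, ((Y w : W) : U) = X w) {ν : κ → ℂ}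
    (hν : ∀ k, ¬ p k → X (c k) = ν k • c k) (u : {k // p k} → W) :
    DD X Ψ (fill W p c u) = DD Y (cnt W p c Ψ) u +
      (∑ k : {k // ¬ p k}, ν k.1) * cnt W p c Ψ u := by
  rw [DD_apply, DD_apply, ← Fintype.sum_subtype_add_sum_subtype p]
  congr 1
  · refine Finset.sum_congr rfl fun k _ => ?_
    rw [cnt_apply, fill_update, hY, fill_pos _ _ k.2]
  · rw [Finset.sum_mul]
    refine Finset.sum_congr rfl fun k _ => ?_
    rw [fill_neg _ _ k.2, hν _ k.2, MultilinearMap.map_update_smul, smul_eq_mul, cnt_apply]
    congr 2
    have h := update_eq_self k.1 (fill W p c u)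
    rw [fill_neg _ _ k.2] at h
    exact h

end Fill

/-- the number of variables is even if there is an operator with the square `-1` -/
theorem even_of_J {W : Type} [AddCommGroup W] [Module ℂ W] {κ : Type} [Fintype κ]
    [DecidableEq κ] {Θ : MultilinearMap ℂ (fun _ : κ => W) ℂ} {J : Module.End ℂ W}
    (hJ : J * J = -1) (hk : DD J Θ = 0) (hodd : Odd (Fintype.card κ)) : Θ = 0 := by
  have hJJ : ∀ u, J (J u) = -u := fun u => by
    have := LinearMap.congr_fun hJ u
    rwa [Module.End.mul_apply, LinearMap.neg_apply, Module.End.one_apply] at this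
  -- eigenvectors
  have key : ∀ (s : κ → Bool) (v : κ → W), (∀ k, J (v k) =
      (if s k then Complex.I else -Complex.I) • v k) → Θ v = 0 := by
    intro s v hv
    have h1 := DD_apply J Θ v
    rw [hk, MultilinearMap.zero_apply] at h1
    have h2 : ∀ k, Θ (update v k (J (v k))) = (if s k then Complex.I else -Complex.I) * Θ v := by
      intro k
      rw [hv, MultilinearMap.map_update_smul, smul_eq_mul, update_eq_self]
    rw [Finset.sum_congr rfl (fun k _ => h2 k), ← Finset.sum_mul] at h1
    refine (mul_eq_zero.1 h1.symm).resolve_left ?_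
    have h3 : ∀ k, (if s k then Complex.I else -Complex.I) =
        Complex.I * (((if s k then 1 else -1 : ℤ)) : ℂ) := by
      intro k
      cases s k <;> simp
    rw [Finset.sum_congr rfl (fun k _ => h3 k), ← Finset.mul_sum, ← Int.cast_sum]
    refine mul_ne_zero Complex.I_ne_zero (Int.cast_ne_zero.2 fun h0 => ?_)
    have h4 : ((∑ k, (if s k then 1 else -1 : ℤ) : ℤ) : ZMod 2) = (Fintype.card κ : ZMod 2) := by
      rw [Int.cast_sum, Fintype.card, Finset.cast_card]
      refine Finset.sum_congr rfl fun k _ => ?_
      cases s k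
      · rw [if_neg (by simp)]
        decide
      · rw [if_pos rfl]
        decide
    rw [h0, Int.cast_zero, eq_comm, ZMod.natCast_eq_zero_iff_even] at h4
    exact (Nat.not_even_iff_odd.2 hodd) h4
  refine MultilinearMap.ext fun v => ?_
  rw [MultilinearMap.zero_apply]
  -- decompose all vectors
  let w : κ → Bool → W := fun k s => (1 / 2 : ℂ) • (v k + (if s then -Complex.I else Complex.I) • J (v k))
  have hw : ∀ k, ∑ s : Bool, w k s = v k := by
    intro k
    rw [Fintype.sum_bool]
    change (1 / 2 : ℂ) • (v k + -Complex.I • J (v k)) + (1 / 2 : ℂ) • (v k + Complex.I • J (v k)) = v k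
    module
  have h1 : Θ v = Θ (fun k => ∑ s : Bool, w k s) := congrArg Θ (funext fun k => (hw k).symm)
  rw [h1, MultilinearMap.map_sum]
  refine Finset.sum_eq_zero fun s _ => key s _ fun k => ?_
  change J ((1 / 2 : ℂ) • (v k + (if s k then -Complex.I else Complex.I) • J (v k))) = _
  rw [map_smul, map_add, map_smul, hJJ]
  change _ = (if s k then Complex.I else -Complex.I) •
    ((1 / 2 : ℂ) • (v k + (if s k then -Complex.I else Complex.I) • J (v k)))
  cases s k
  · rw [if_neg (by simp), if_neg (by simp)]
    have : -Complex.I • (1 / 2 : ℂ) • (v k + Complex.I • J (v k)) =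
      (1 / 2 : ℂ) • (-Complex.I • v k + (-(Complex.I * Complex.I)) • J (v k)) := by module
    rw [this, Complex.I_mul_I]
    module
  · rw [if_pos rfl, if_pos rfl]
    have : Complex.I • (1 / 2 : ℂ) • (v k + -Complex.I • J (v k)) =
      (1 / 2 : ℂ) • (Complex.I • v k + (-(Complex.I * Complex.I)) • J (v k)) := by module
    rw [this, Complex.I_mul_I]
    module

end Pool.Agent.H845.AC
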