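import Pool.Agent.H845.AC.Split

set_option autoImplicit false
set_option linter.unusedSectionVars false
set_option linter.unusedSimpArgs false
set_option linter.unusedVariables false

/-!
# The theorem in all codimensions
-/

open Module Function TensorProduct

noncomputable section

namespace Pool.Agent.H845.AC

open Pool.Agent.Y102 Pool.Agent.W516.DR Pool.Agent.H204R3.GP Pool.Agent.W516.KC
  Pool.Agent.H204R3.SP Pool.Agent.R912 Pool.Agent.W5h25.AS Pool.Agent.H845.CM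

variable {g : ℕ} {A : AbVar g} {n : ℕ} {b : Basis (Fin n) ℂ (ℂ ⊗[ℚ] A.H1)}
  {χ : Fin n → (A.ZA →ₗ[ℚ] ℂ)} {σ : Equiv.Perm (Fin n)} {T : Finset (Fin n)}
  {κ : Type} [Fintype κ] [DecidableEq κ]

theorem sum_nu (H : Rel χ σ T)
    (hb : ∀ k (R : A.ZA), (R : Module.End ℚ A.H1).baseChange ℂ (b k) = χ k R • b k)
    {P : A.ZA} {c : ℂ} (hc : c ≠ 0) (hP : ∀ k, χ k P = sg χ T k * c)
    {Z : Module.End ℚ A.H1} {ν : Fin n → ℂ}
    (hν1 : ∀ k, χ k ≠ 0 → Z.baseChange ℂ (b k) = ν k • b k)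
    (hν4 : ∀ k l, χ k + χ l = 0 → ν k + ν l = 0)
    (htr : LinearMap.trace ℚ A.H1 (Z * (P : Module.End ℚ A.H1)) = 0) : ∑ t ∈ T, ν t = 0 := by
  have h1 : ((LinearMap.trace ℚ A.H1 (Z * (P : Module.End ℚ A.H1)) : ℚ) : ℂ) =
      ∑ k, χ k P * ν k := by
    have h2 : ((LinearMap.trace ℚ A.H1 (Z * (P : Module.End ℚ A.H1)) : ℚ) : ℂ) =
        LinearMap.trace ℂ (ℂ ⊗[ℚ] A.H1) ((Z * (P : Module.End ℚ A.H1)).baseChange ℂ) := by
      rw [LinearMap.trace_baseChange]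
      rfl
    rw [h2, bc_mul]
    refine trace_diag b _ _ fun k => ?_
    rw [Module.End.mul_apply, hb, map_smul]
    by_cases hk : χ k = 0
    · rw [hk, LinearMap.zero_apply, zero_smul, zero_mul, zero_smul]
    · rw [hν1 k hk, smul_smul]
  rw [htr, H.sum_univ _ fun k hk => by rw [hk, LinearMap.zero_apply, zero_mul]] at h1
  have h3 : ∑ t ∈ T, χ t P * ν t = c * ∑ t ∈ T, ν t := by
    rw [Finset.mul_sum]
    exact Finset.sum_congr rfl fun t ht => by rw [hP, sg_of_eq ht rfl, one_mul]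
  have h4 : ∑ t ∈ T, χ (σ t) P * ν (σ t) = c * ∑ t ∈ T, ν t := by
    rw [Finset.mul_sum]
    refine Finset.sum_congr rfl fun t ht => ?_
    have h5 := hν4 (σ t) t (by rw [H.opp, neg_add_cancel])
    rw [hP, H.sg_of_neg ht (H.opp t)]
    linear_combination (-c) * h5
  rw [h3, h4, ← two_mul, Rat.cast_zero] at h1
  have h5 := (mul_eq_zero.1 h1.symm).resolve_left two_ne_zero
  exact (mul_eq_zero.1 h5).resolve_left hc

/-- The exceptional part is killed by the skew elements of trace zero over the quadratic field. -/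
theorem weil_kill' (hK : Kill0 A) (hA : CMIV A) (H : Rel χ σ T)
    (hb : ∀ k (R : A.ZA), (R : Module.End ℚ A.H1).baseChange ℂ (b k) = χ k R • b k)
    {P : A.ZA} {c : ℂ} (hc : c ≠ 0) (hP : ∀ k, χ k P = sg χ T k * c)
    {w : A.H1 [⋀^κ]→ₗ[ℚ] ℚ} (hL : ∀ X ∈ A.LA, dK X w = 0)
    (hsupp : ∀ t : κ → Fin n, cm w (fun l => b (t l)) ≠ 0 → Good χ σ T t)
    {Z : Module.End ℚ A.H1}
    (hZ : Z.baseChange ℂ ∈ Algebra.adjoin ℂ (cx A.LA : Set (Module.End ℂ (ℂ ⊗[ℚ] A.H1))))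
    (hZs : IsSkew A.om Z)
    (htr : LinearMap.trace ℚ A.H1 (Z * (P : Module.End ℚ A.H1)) = 0) : dK Z w = 0 := by
  have hZs' := skew_ext A.om (omC A) (omC_tmul A) hZs
  obtain ⟨ν, hν1, hν2, hν3, hν4⟩ := exists_ν hA hb hZ hZs'
  have hsum := sum_nu H hb hc hP hν1 hν4 htr
  apply cm_inj
  rw [cm_zero, cm_der]
  refine kill_gen hK hA hb (alt_cm w) (fun X hX => by rw [← cm_der, hL X hX, cm_zero]) hZ hZs'
    hν1 hν2 fun t ht => ?_
  rcases hsupp t ht with ⟨h, -⟩ | ⟨h, -⟩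
  · rw [h ν hν2, hsum]
  · rw [h ν hν2, ← neg_eq_zero, ← Finset.sum_neg_distrib, ← hsum]
    refine Finset.sum_congr rfl fun t _ => ?_
    have h5 := hν4 (σ t) t (by rw [H.opp, neg_add_cancel])
    linear_combination -h5

theorem drb_of_dK {m : ℕ} {φ : A.H1 [⋀^Fin m × Fin 2]→ₗ[ℚ] ℚ} (h : ∀ X ∈ A.LA, dK X φ = 0) :
    IsDeRhamBettiForm QBar A.dR Pool.Agent.Y102.tau m φ.toMultilinearMap := by
  have h1 := drb_of_kills A.basis AbVar.tau_ne φ.toMultilinearMap fun X hX => by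
    rw [← A.LA_eq] at hX
    exact (kills_iff_dK X φ).2 (h X hX)
  rw [A.coe_basis] at h1
  exact h1

/-- **The theorem in all codimensions**. -/
theorem main (hK : Kill0 A) (hA : CMIV A) (h1 : finrank ℚ (V1 A) ≤ 8) {m : ℕ}
    (φ : A.H1 [⋀^Fin m × Fin 2]→ₗ[ℚ] ℚ)
    (hφ : IsDeRhamBettiForm QBar A.dR Pool.Agent.Y102.tau m φ.toMultilinearMap) :
    ∃ φ₀ w : A.H1 [⋀^Fin m × Fin 2]→ₗ[ℚ] ℚ, φ = φ₀ + w ∧
      IsDeRhamBettiForm QBar A.dR Pool.Agent.Y102.tau m φ₀.toMultilinearMap ∧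
      IsDeRhamBettiForm QBar A.dR Pool.Agent.Y102.tau m w.toMultilinearMap ∧
      IsHodgeTensor (A.per : A.H1 →+ (Fin g → ℂ)) φ₀.toMultilinearMap ∧
      (∀ X : Module.End ℚ A.H1, IsSkew A.om X → (∀ Q ∈ A.EA, X * Q = Q * X) →
        Kills X φ₀.toMultilinearMap) ∧
      (w = 0 ∨ ∃ (P : Module.End ℚ A.H1) (r : ℚ), P ∈ A.ZA ∧ 0 < r ∧ finrank ℚ (V1 A) = 8 ∧
        (∀ R ∈ A.ZA, P * P * R = -(r • R)) ∧ Weil4 P r w ∧
        ∀ M : (Fin g → ℂ) →ₗ[ℂ] (Fin g → ℂ), (∀ v, M (A.per v) = A.per (P v)) →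
          LinearMap.trace ℂ (Fin g → ℂ) M = 0 →
            IsHodgeTensor (A.per : A.H1 →+ (Fin g → ℂ)) w.toMultilinearMap) := by
  classical
  obtain ⟨n, b, χ, hb⟩ := A.exists_basis
  obtain ⟨σ, hσ⟩ := exists_perm hb
  have h8 : ∀ S : Finset (Fin n), (∀ x ∈ S, χ x ≠ 0) → S.card ≤ 8 := by
    intro S hS
    refine le_trans (Finset.card_le_card (t := Finset.univ.filter fun k => χ k ≠ 0) ?_) ?_
    · intro x hx
      exact Finset.mem_filter.2 ⟨Finset.mem_univ _, hS x hx⟩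
    · rw [← finrank_V1 hb]
      exact h1
  have hκ : Even (Fintype.card (Fin m × Fin 2)) := by
    rw [Fintype.card_prod, Fintype.card_fin, Fintype.card_fin]
    exact ⟨m, by omega⟩
  have hL : ∀ X ∈ A.LA, dK X φ = 0 := fun X hX =>
    (kills_iff_dK X φ).1 (A.kills_of_mem hφ hX)
  -- the forms which are killed by `ZA`
  have key : ∀ φ₀ : A.H1 [⋀^Fin m × Fin 2]→ₗ[ℚ] ℚ, (∀ X ∈ A.LA, dK X φ₀ = 0) →
      (∀ R ∈ A.ZA, dK R φ₀ = 0) →
      (∀ X : Module.End ℚ A.H1, IsSkew A.om X → (∀ Q ∈ A.EA, X * Q = Q * X) →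
        Kills X φ₀.toMultilinearMap) := by
    intro φ₀ e1 e2 X hX1 hX2
    have hadj : X ∈ Algebra.adjoin ℚ (A.LA : Set (Module.End ℚ A.H1)) :=
      mem_adjoin_of_comm A.semi_LA fun P hP => hX2 P hP
    have hadj' := bc_adjoin hadj
    rw [kills_iff_DD]
    exact kill_all' hK hA hb (alt_cm φ₀) (fun Y hY => by rw [← cm_der, e1 Y hY, cm_zero])
      (fun R hR => by rw [← cm_der, e2 R hR, cm_zero]) hadj'
      (skew_ext A.om (omC A) (omC_tmul A) hX1)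
  have hodge : ∀ φ₀ : A.H1 [⋀^Fin m × Fin 2]→ₗ[ℚ] ℚ, (∀ X ∈ A.LA, dK X φ₀ = 0) →
      (∀ R ∈ A.ZA, dK R φ₀ = 0) →
      IsHodgeTensor (A.per : A.H1 →+ (Fin g → ℂ)) φ₀.toMultilinearMap := fun φ₀ e1 e2 =>
    hodge_of_kills _ A.isRationalStructure _ fun Z hZ' =>
      key φ₀ e1 e2 Z (A.NA_skew (A.MA_le_NA hZ')) fun Q hQ => A.NA_comm (A.MA_le_NA hZ') hQ
  rcases alternative' hK hA hb hσ h8 hκ hL with h | ⟨T, H, W, P, c, hc, hP⟩
  · refine ⟨φ, 0, (add_zero φ).symm, hφ, drb_of_dK fun X hX => dK_zero_right X,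
      hodge φ hL h, key φ hL h, Or.inl rfl⟩
  · obtain ⟨r, hr0, hr, hPP⟩ := H.field hb hc hP
    obtain ⟨q, hq1, hq2, hq3⟩ := split' H hb W hc hP hr
    obtain ⟨w, hw⟩ : ∃ w, w = q • dK (P : Module.End ℚ A.H1)
      (dK (P : Module.End ℚ A.H1) φ) := ⟨_, rfl⟩
    rw [← hw] at hq1 hq2 hq3
    have hLw : ∀ X ∈ A.LA, dK X w = 0 := by
      intro X hX
      have hcom : X * (P : Module.End ℚ A.H1) = (P : Module.End ℚ A.H1) * X := P.2.1 X hX
      have e0 : ∀ ξ : A.H1 [⋀^Fin m × Fin 2]→ₗ[ℚ] ℚ, dK X ξ = 0 →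
          dK X (dK (P : Module.End ℚ A.H1) ξ) = 0 := fun ξ hξ => by
        rw [dK_comm ξ hcom, hξ, dK_zero_right]
      rw [hw, dK_smul_right, e0 _ (e0 _ (hL X hX)), smul_zero]
    have hL0 : ∀ X ∈ A.LA, dK X (φ - w) = 0 := fun X hX => by
      rw [dK_sub_right, hL X hX, hLw X hX, sub_zero]
    refine ⟨φ - w, w, (sub_add_cancel φ w).symm, drb_of_dK hL0, drb_of_dK hLw,
      hodge _ hL0 hq1, key _ hL0 hq1, Or.inr ⟨P, r, P.2, hr0, H.finrank_V1 hb, hPP, hq2, ?_⟩⟩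
    intro M hM htr
    refine hodge_of_J _ fun f => ?_
    have hJ : A.cmpE f AbVar.JJ ∈ A.NA := A.MA_le_NA (A.J_mem f)
    rw [kills_iff_dK]
    exact weil_kill' hK hA H hb hc hP hLw hq3 (A.cx_adjoin _ (bc_mem hJ)) (A.NA_skew hJ)
      (trace_J hM htr f)

end Pool.Agent.H845.AC
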