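import Pool.Agent.H845.AC.K0

set_option autoImplicit false
set_option linter.unusedSectionVars false
set_option linter.unusedSimpArgs false
set_option linter.unusedVariables false

/-!
# Forms killed by the Lie algebra
-/

open Module Function TensorProduct

noncomputable section

namespace Pool.Agent.H845.AC

open Pool.Agent.Y102 Pool.Agent.W516.DR Pool.Agent.H204R3.GP Pool.Agent.W516.KC
  Pool.Agent.H204R3.SP Pool.Agent.R912 Pool.Agent.W5h25.AS Pool.Agent.H845.CM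

variable {g : ℕ} {A : AbVar g} {n : ℕ} {b : Basis (Fin n) ℂ (ℂ ⊗[ℚ] A.H1)}
  {χ : Fin n → (A.ZA →ₗ[ℚ] ℂ)} {κ : Type} [Fintype κ] [DecidableEq κ]
  {Ψ : MultilinearMap ℂ (fun _ : κ => ℂ ⊗[ℚ] A.H1) ℂ}

theorem wt (hb : ∀ k (R : A.ZA), (R : Module.End ℚ A.H1).baseChange ℂ (b k) = χ k R • b k)
    (R : A.ZA) (t : κ → Fin n) : DD ((R : Module.End ℚ A.H1).baseChange ℂ) Ψ (fun l => b (t l)) =
      (∑ k, χ (t k)) R * Ψ (fun l => b (t l)) := by
  rw [DD_diag (ν := fun k => χ k R) (fun k => hb (t k) R), LinearMap.sum_apply]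

theorem rs_ne (hb : ∀ k (R : A.ZA), (R : Module.End ℚ A.H1).baseChange ℂ (b k) = χ k R • b k)
    (hL : ∀ X ∈ A.LA, DD (X.baseChange ℂ) Ψ = 0) {t : κ → Fin n}
    (hne : Ψ (fun l => b (t l)) ≠ 0) : rs A (∑ k, χ (t k)) = 0 := by
  refine rs_zero fun R hR => ?_
  have h1 := wt (Ψ := Ψ) hb R t
  rw [hL R hR, MultilinearMap.zero_apply] at h1
  exact (mul_eq_zero.1 h1.symm).resolve_right hne

theorem cx_kills {S : Submodule ℚ (Module.End ℚ A.H1)}
    (hL : ∀ X ∈ S, DD (X.baseChange ℂ) Ψ = 0) {x : Module.End ℂ (ℂ ⊗[ℚ] A.H1)}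
    (hx : x ∈ cx S) : DD x Ψ = 0 := by
  induction hx using Submodule.span_induction with
  | mem x hx =>
    obtain ⟨X, hX, rfl⟩ := hx
    exact hL X hX
  | zero => exact DD_zero _
  | add x y _ _ hx hy => rw [DD_add, hx, hy, add_zero]
  | smul c x _ hx => rw [DD_smul, hx, smul_zero]

open Classical in
/-- the form on `U0` given by a tuple -/
def th (Ψ : MultilinearMap ℂ (fun _ : κ => ℂ ⊗[ℚ] A.H1) ℂ) (b : Basis (Fin n) ℂ (ℂ ⊗[ℚ] A.H1))
    (χ : Fin n → (A.ZA →ₗ[ℚ] ℂ)) (t : κ → Fin n) :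
    MultilinearMap ℂ (fun _ : {k // χ (t k) = 0} => U0 A) ℂ :=
  cnt (U0 A) (fun k => χ (t k) = 0) (fun k => b (t k)) Ψ

open Classical in
/-- **The Lie algebra kills the forms on `U0`.** -/
theorem L0_kills (hA : CMIV A)
    (hb : ∀ k (R : A.ZA), (R : Module.End ℚ A.H1).baseChange ℂ (b k) = χ k R • b k)
    (hL : ∀ X ∈ A.LA, DD (X.baseChange ℂ) Ψ = 0) {t : κ → Fin n}
    (hrs : rs A (∑ k, χ (t k)) = 0) : ∀ s ∈ L0 A, DD s (th Ψ b χ t) = 0 := by
  have key : ∀ x ∈ cx A.LA, ∃ ν : Fin n → ℂ, (∀ k, χ k ≠ 0 → x (b k) = ν k • b k) ∧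
      ∑ k : {k // ¬ χ (t k) = 0}, ν (t k.1) = 0 := by
    intro x hx
    induction hx using Submodule.span_induction with
    | mem x hx =>
      obtain ⟨X, hX, rfl⟩ := hx
      obtain ⟨R, hRL, hR, -⟩ := act hA hb hX
      refine ⟨fun k => χ k R, hR, ?_⟩
      have h1 := of_rs_zero hrs hRL
      rw [LinearMap.sum_apply, ← Fintype.sum_subtype_add_sum_subtype (fun k => χ (t k) = 0)] at h1
      have h2 : ∑ k : {k // χ (t k) = 0}, χ (t k.1) R = 0 :=
        Finset.sum_eq_zero fun k _ => by rw [k.2, LinearMap.zero_apply]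
      rw [h2, zero_add] at h1
      exact h1
    | zero => exact ⟨fun _ => 0, fun k _ => by rw [LinearMap.zero_apply, zero_smul], by simp⟩
    | add x y _ _ hx hy =>
      obtain ⟨ν, h1, h2⟩ := hx
      obtain ⟨μ, h3, h4⟩ := hy
      refine ⟨fun k => ν k + μ k, fun k hk => by
        rw [LinearMap.add_apply, h1 k hk, h3 k hk, add_smul], ?_⟩
      rw [Finset.sum_add_distrib, h2, h4, add_zero]
    | smul c x _ hx =>
      obtain ⟨ν, h1, h2⟩ := hx
      refine ⟨fun k => c * ν k, fun k hk => by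
        rw [LinearMap.smul_apply, h1 k hk, mul_smul], ?_⟩
      rw [← Finset.mul_sum, h2, mul_zero]
  rintro s ⟨x, hx, hs⟩
  obtain ⟨ν, h1, h2⟩ := key x hx
  refine MultilinearMap.ext fun u => ?_
  have h3 := DD_fill (W := U0 A) (p := fun k => χ (t k) = 0) (c := fun k => b (t k)) Ψ (X := x)
    (Y := s) hs (ν := fun k => ν (t k)) (fun k hk => h1 _ hk) u
  rw [cx_kills hL hx, h2, zero_mul, add_zero] at h3
  exact h3.symm

open Classical in
theorem th_self (hb : ∀ k (R : A.ZA), (R : Module.End ℚ A.H1).baseChange ℂ (b k) = χ k R • b k)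
    (Ψ : MultilinearMap ℂ (fun _ : κ => ℂ ⊗[ℚ] A.H1) ℂ) (t : κ → Fin n) :
    th Ψ b χ t (fun k => ⟨b (t k.1), basis_mem_U0 hb k.2⟩) = Ψ (fun l => b (t l)) := by
  unfold th
  rw [cnt_apply]
  congr 1
  funext k
  by_cases h : χ (t k) = 0
  · rw [fill_pos (p := fun k => χ (t k) = 0) _ _ h]
  · rw [fill_neg (p := fun k => χ (t k) = 0) _ _ h]

open Classical in
/-- If the form on `U0` is not zero then it has a nonzero value on basis vectors. -/
theorem exists_rep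
    (hb : ∀ k (R : A.ZA), (R : Module.End ℚ A.H1).baseChange ℂ (b k) = χ k R • b k)
    {t : κ → Fin n} (h0 : th Ψ b χ t ≠ 0) : ∃ t' : κ → Fin n,
      (∀ k, χ (t k) ≠ 0 → t' k = t k) ∧ (∀ k, χ (t k) = 0 → χ (t' k) = 0) ∧
      Ψ (fun l => b (t' l)) ≠ 0 := by
  by_contra hcon
  push Not at hcon
  apply h0
  let F : (ℂ ⊗[ℚ] A.H1) →ₗ[ℂ] U0 A := (pr b χ).codRestrict (U0 A) (pr_mem hb)
  have hF : ∀ u : U0 A, F u.1 = u := fun u => Subtype.ext (pr_id hb u.2)
  have hF0 : ∀ k, χ k = 0 → ((F (b k) : U0 A) : ℂ ⊗[ℚ] A.H1) = b k := fun k hk =>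
    pr_id hb (basis_mem_U0 hb hk)
  have hF1 : ∀ k, χ k ≠ 0 → F (b k) = 0 := by
    intro k hk
    apply Subtype.ext
    change pr b χ (b k) = 0
    rw [pr, dg_apply, if_neg hk, zero_smul]
  have h1 : (th Ψ b χ t).compLinearMap (fun _ => F) = 0 := by
    refine Basis.ext_multilinear (fun _ => b) fun I => ?_
    rw [MultilinearMap.compLinearMap_apply, MultilinearMap.zero_apply]
    by_cases hI : ∀ k, χ (I k) = 0
    · have h2 := hcon (fun k => if h : χ (t k) = 0 then I ⟨k, h⟩ else t k)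
        (fun k hk => by rw [dif_neg hk]) (fun k hk => by rw [dif_pos hk]; exact hI _)
      rw [← h2]
      unfold th
      rw [cnt_apply]
      congr 1
      funext k
      by_cases h : χ (t k) = 0
      · rw [fill_pos (p := fun k => χ (t k) = 0) _ _ h, hF0 _ (hI _), dif_pos h]
      · rw [fill_neg (p := fun k => χ (t k) = 0) _ _ h, dif_neg h]
    · push Not at hI
      obtain ⟨k, hk⟩ := hI
      exact MultilinearMap.map_coord_zero _ k (hF1 _ hk)
  refine MultilinearMap.ext fun u => ?_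
  have h2 := congrArg (fun G : MultilinearMap ℂ (fun _ : {k // χ (t k) = 0} => ℂ ⊗[ℚ] A.H1) ℂ =>
    G (fun k => (u k : ℂ ⊗[ℚ] A.H1))) h1
  simp only [MultilinearMap.compLinearMap_apply, hF] at h2
  exact h2

open Classical in
/-- **The number of variables in `U0` is even.** -/
theorem even_zero (hK : Kill0 A) (hA : CMIV A)
    (hb : ∀ k (R : A.ZA), (R : Module.End ℚ A.H1).baseChange ℂ (b k) = χ k R • b k)
    (hAlt : Alt Ψ) (hL : ∀ X ∈ A.LA, DD (X.baseChange ℂ) Ψ = 0) {t : κ → Fin n}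
    (hne : Ψ (fun l => b (t l)) ≠ 0) : Even (Finset.univ.filter fun k => χ (t k) = 0).card := by
  by_contra hodd
  rw [Nat.not_even_iff_odd] at hodd
  have h1 : Odd (Fintype.card {k // χ (t k) = 0}) := by
    rw [Fintype.card_subtype]
    exact hodd
  have h2 := hK.odd hb (Θ := th Ψ b χ t) (alt_cnt _ hAlt) (L0_kills hA hb hL (rs_ne hb hL hne)) h1
  have h3 := th_self hb Ψ t
  rw [h2, MultilinearMap.zero_apply] at h3
  exact hne h3.symm

/-- **The general criterion.** -/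
theorem kill_gen (hK : Kill0 A) (hA : CMIV A)
    (hb : ∀ k (R : A.ZA), (R : Module.End ℚ A.H1).baseChange ℂ (b k) = χ k R • b k)
    (hAlt : Alt Ψ) (hL : ∀ X ∈ A.LA, DD (X.baseChange ℂ) Ψ = 0)
    {X : Module.End ℂ (ℂ ⊗[ℚ] A.H1)}
    (hX : X ∈ Algebra.adjoin ℂ (cx A.LA : Set (Module.End ℂ (ℂ ⊗[ℚ] A.H1))))
    (hXs : ∀ u v, omC A (X u) v + omC A u (X v) = 0) {ν : Fin n → ℂ}
    (hν : ∀ k, χ k ≠ 0 → X (b k) = ν k • b k) (hν0 : ∀ k, χ k = 0 → ν k = 0)
    (hsum : ∀ t : κ → Fin n, Ψ (fun l => b (t l)) ≠ 0 → ∑ k, ν (t k) = 0) : DD X Ψ = 0 := by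
  classical
  refine Basis.ext_multilinear (fun _ => b) fun t => ?_
  have h1 := DD_fill (W := U0 A) (p := fun k => χ (t k) = 0) (c := fun k => b (t k)) Ψ (X := X)
    (Y := rst (adj_comm_ZA hX)) (fun w => rst_coe _ w) (ν := fun k => ν (t k))
    (fun k hk => hν _ hk) (fun k => ⟨b (t k.1), basis_mem_U0 hb k.2⟩)
  have h2 : fill (U0 A) (fun k => χ (t k) = 0) (fun k => b (t k))
      (fun k => ⟨b (t k.1), basis_mem_U0 hb k.2⟩) = fun k => b (t k) := by
    funext k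
    by_cases h : χ (t k) = 0
    · rw [fill_pos (p := fun k => χ (t k) = 0) _ _ h]
    · rw [fill_neg (p := fun k => χ (t k) = 0) _ _ h]
  rw [h2] at h1
  rw [MultilinearMap.zero_apply]
  by_cases h0 : th Ψ b χ t = 0
  · have h3 : cnt (U0 A) (fun k => χ (t k) = 0) (fun k => b (t k)) Ψ = 0 := h0
    rw [h1, h3, DD_zero_right]
    simp only [MultilinearMap.zero_apply, mul_zero, add_zero]
  · obtain ⟨t', e1, e2, e3⟩ := exists_rep hb h0
    have hχ : ∀ k, χ (t' k) = χ (t k) := by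
      intro k
      by_cases h : χ (t k) = 0
      · rw [h, e2 k h]
      · rw [e1 k h]
    have hrs : rs A (∑ k, χ (t k)) = 0 := by
      rw [← rs_ne hb hL e3]
      congr 1
      exact Finset.sum_congr rfl fun k _ => (hχ k).symm
    have h3 := hK _ (th Ψ b χ t) (alt_cnt _ hAlt) (L0_kills hA hb hL hrs)
      (rst (adj_comm_ZA hX)) (rst_stab hX) (fun k hk => rst_comm hb hX hk) (rst_skew hX hXs)
    have h4 : ∑ k : {k // ¬ χ (t k) = 0}, ν (t k.1) = 0 := by
      have h5 := hsum t' e3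
      rw [← Fintype.sum_subtype_add_sum_subtype (fun k => χ (t k) = 0)] at h5
      have h6 : ∑ k : {k // χ (t k) = 0}, ν (t' k.1) = 0 :=
        Finset.sum_eq_zero fun k _ => hν0 _ (e2 k.1 k.2)
      rw [h6, zero_add] at h5
      rw [← h5]
      exact Finset.sum_congr rfl fun k _ => by rw [e1 k.1 k.2]
    have h5 : DD (rst (adj_comm_ZA hX)) (cnt (U0 A) (fun k => χ (t k) = 0)
      (fun k => b (t k)) Ψ) = 0 := h3
    rw [h1, h5, h4, zero_mul, add_zero, MultilinearMap.zero_apply]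

/-- Forms which are killed by `ZA` are killed by the double commutant. -/
theorem kill_all' (hK : Kill0 A) (hA : CMIV A)
    (hb : ∀ k (R : A.ZA), (R : Module.End ℚ A.H1).baseChange ℂ (b k) = χ k R • b k)
    (hAlt : Alt Ψ) (hL : ∀ X ∈ A.LA, DD (X.baseChange ℂ) Ψ = 0)
    (hZ : ∀ R ∈ A.ZA, DD (R.baseChange ℂ) Ψ = 0)
    {X : Module.End ℂ (ℂ ⊗[ℚ] A.H1)}
    (hX : X ∈ Algebra.adjoin ℂ (cx A.LA : Set (Module.End ℂ (ℂ ⊗[ℚ] A.H1))))
    (hXs : ∀ u v, omC A (X u) v + omC A u (X v) = 0) : DD X Ψ = 0 := by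
  obtain ⟨ν, hν1, hν2, hν3, hν4⟩ := exists_ν hA hb hX hXs
  refine kill_gen hK hA hb hAlt hL hX hXs hν1 hν2 fun t ht => ?_
  have h1 := cx_kills hZ (dg_cx hb hν3 hν4)
  have h2 := DD_diag (Ψ := Ψ) (X := dg b ν) (t := t) (b := b) (ν := ν) fun k => dg_apply ν (t k)
  rw [h1, MultilinearMap.zero_apply] at h2
  exact (mul_eq_zero.1 h2.symm).resolve_right ht

end Pool.Agent.H845.AC
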