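import Pool.Agent.H845.AC.Fill

set_option autoImplicit false
set_option linter.unusedSectionVars false
set_option linter.unusedSimpArgs false
set_option linter.unusedVariables false

/-!
# The forms on the part without type IV
-/

open Module Function TensorProduct

noncomputable section

namespace Pool.Agent.H845.AC

open Pool.Agent.Y102 Pool.Agent.W516.DR Pool.Agent.H204R3.GP Pool.Agent.W516.KC
  Pool.Agent.H204R3.SP Pool.Agent.R912 Pool.Agent.W5h25.AS Pool.Agent.H845.CM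

attribute [local instance 100] LieRing.ofAssociativeRing

variable {g : ℕ} {A : AbVar g} {n : ℕ} {b : Basis (Fin n) ℂ (ℂ ⊗[ℚ] A.H1)}
  {χ : Fin n → (A.ZA →ₗ[ℚ] ℂ)}

variable (A) in
/-- The forms on the part without type IV which are killed by the Lie algebra are killed by the
skew operators in the double commutant. -/
def Kill0 : Prop := ∀ (κ : Type) [Fintype κ] [DecidableEq κ]
  (Θ : MultilinearMap ℂ (fun _ : κ => U0 A) ℂ), Alt Θ → (∀ x ∈ L0 A, DD x Θ = 0) →
  ∀ X : Module.End ℂ (U0 A),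
    (∀ P : Submodule ℂ (U0 A), (∀ x ∈ L0 A, ∀ u ∈ P, x u ∈ P) → ∀ u ∈ P, X u ∈ P) →
    (∀ K : Module.End ℂ (U0 A), (∀ x ∈ L0 A, x * K = K * x) → X * K = K * X) →
    (∀ u v, om0 A (X u) v + om0 A u (X v) = 0) → DD X Θ = 0

theorem kill0_four
    (hb : ∀ k (R : A.ZA), (R : Module.End ℚ A.H1).baseChange ℂ (b k) = χ k R • b k)
    (hE : ∀ c, (∀ R ∈ A.ZA, c R = 0) → finrank ℂ (ceig A c) ≤ 4) : Kill0 A := by
  have H4 : Hyp4 (L0 A) (om0 A) := by
    refine ⟨thyp hb, fun N hN => ?_⟩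
    have hN' : IrrSub (cx A.LA) (N.map (U0 A).subtype) := by
      refine ⟨?_, stab_map hN.stab, fun P hP hPs hP0 => ?_⟩
      · intro h0
        apply hN.ne
        rw [eq_bot_iff]
        intro u hu
        have h1 : (u : ℂ ⊗[ℚ] A.H1) ∈ N.map (U0 A).subtype := ⟨u, hu, rfl⟩
        rw [h0, Submodule.mem_bot] at h1
        rw [Submodule.mem_bot]
        exact Subtype.ext h1
      · have h1 : P ≤ U0 A := hP.trans (by
          rintro _ ⟨y, _, rfl⟩
          exact y.2)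
        have h2 : (P.comap (U0 A).subtype).map (U0 A).subtype = P := by
          rw [Submodule.map_comap_subtype]
          exact inf_eq_right.2 h1
        have h3 := hN.irr (P.comap (U0 A).subtype) (fun u hu => by
          obtain ⟨y, hy, hy'⟩ := hP hu
          rw [← Subtype.ext hy']
          exact hy) (fun x hx u hu => by
          obtain ⟨t, ht, hs⟩ := hx
          have h4 := hPs t ht u.1 hu
          rw [← hs] at h4
          exact h4) (by
          intro h0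
          apply hP0
          rw [← h2, h0, Submodule.map_bot])
        rw [← h3, h2]
    obtain ⟨c, hc⟩ := pk_le_ceig hN'
    have hc0 : ∀ R ∈ A.ZA, c R = 0 := by
      intro R hR
      obtain ⟨u, hu, hu0⟩ := hN'.ne |> (Submodule.ne_bot_iff _).1
      have h1 : u ∈ U0 A := by
        obtain ⟨y, _, rfl⟩ := hu
        exact y.2
      have h2 := hc (le_PK hu) R ⟨hR.1, hR.2.2⟩
      rw [h1 ⟨R, hR⟩] at h2
      exact (smul_eq_zero.1 h2.symm).resolve_right hu0
    have h1 : (PK (L0 A) N).map (U0 A).subtype ≤ ceig A c := by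
      refine le_trans ?_ hc
      rintro _ ⟨w, hw, rfl⟩
      unfold PK at hw
      induction hw using Submodule.span_induction with
      | mem w hw =>
        obtain ⟨k, hk, u, hu, rfl⟩ := hw
        refine Submodule.subset_span ⟨ext0 b χ hb k, ext0_comm hb hk, u.1, ⟨u, hu, rfl⟩, ?_⟩
        exact (ext0_U0 hb k u).symm
      | zero => rw [map_zero]; exact Submodule.zero_mem _
      | add x y _ _ hx hy => rw [map_add]; exact Submodule.add_mem _ hx hy
      | smul r x _ hx => rw [map_smul]; exact Submodule.smul_mem _ r hx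
    rw [← Submodule.finrank_map_subtype_eq (U0 A) (PK (L0 A) N)]
    exact (Submodule.finrank_mono h1).trans (hE c hc0)
  intro κ _ _ Θ hΘ hL X h1 h2 h3
  rw [← mem_KL']
  exact main' H4 hΘ (fun x hx => mem_KL'.2 (hL x hx)) h1 h2 h3

/-- if all irreducible subspaces have dimension two -/
theorem all_two {U : Type} [AddCommGroup U] [Module ℂ U] [FiniteDimensional ℂ U] [Nontrivial U]
    {L : Submodule ℂ (Module.End ℂ U)} {ω : U →ₗ[ℂ] U →ₗ[ℂ] ℂ} (H : THyp L ω)
    (hE : ∀ D, IrrSub L D → finrank ℂ D = 2) {X : Module.End ℂ U}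
    (hX1 : ∀ P : Submodule ℂ U, (∀ x ∈ L, ∀ u ∈ P, x u ∈ P) → ∀ u ∈ P, X u ∈ P)
    (hX2 : ∀ K : Module.End ℂ U, (∀ x ∈ L, x * K = K * x) → X * K = K * X)
    (hX3 : ∀ u v, ω (X u) v + ω u (X v) = 0) : X ∈ L := by
  obtain ⟨T, i1, i2, ⟨S⟩⟩ := Pool.Agent.R912.exists_rs_of_killing H.br
    fun 𝔩 h𝔩 => H.isKilling 𝔩 h𝔩
  have hnd : ∀ u ∈ (⊤ : Submodule ℂ U), (∀ v ∈ (⊤ : Submodule ℂ U), ω v u = 0) → u = 0 :=
    H.abs ⊤ (fun _ _ _ _ => trivial) (fun _ _ _ _ => trivial)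
  obtain ⟨n, hn⟩ : Even (finrank ℂ (⊤ : Submodule ℂ U)) := by
    rw [finrank_top]
    exact even_of_alt ω (fun u v => H.alt u v) fun u hu => H.nd u fun v => hu v
  obtain ⟨e, w, hG⟩ := H.decomp S 0 n ⊤ (fun _ _ _ _ => trivial) hnd
    (fun D hD _ => hE D hD) (by omega)
  obtain ⟨x, hx, hxX⟩ := hG.two (fun i j hij => by
    have : i.val = j.val := by omega
    exact Fin.ext this) H.alt H.skew H.br hX1 hX2 hX3
  have : X = x := LinearMap.ext fun u => hxX u trivial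
  rw [this]
  exact hx

theorem exists_eig {E : Type} [AddCommGroup E] [Module ℂ E] [FiniteDimensional ℂ E]
    (M : Submodule ℂ E) (hM : M ≠ ⊥) (G : Module.End ℂ E) (hG : ∀ f ∈ M, G f ∈ M) :
    ∃ f ∈ M, f ≠ 0 ∧ ∃ c : ℂ, G f = c • f := by
  have hnt : Nontrivial M := Submodule.nontrivial_iff_ne_bot.2 hM
  obtain ⟨c, hc⟩ := Module.End.exists_eigenvalue (G.restrict hG)
  obtain ⟨v, hv⟩ := hc.exists_hasEigenvector
  exact ⟨v.1, v.2, fun h => hv.2 (Subtype.ext h), c, congrArg Subtype.val hv.apply_eq_smul⟩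

theorem kill0_two
    (hb : ∀ k (R : A.ZA), (R : Module.End ℚ A.H1).baseChange ℂ (b k) = χ k R • b k)
    {P : Module.End ℚ A.H1} (hP : P ∈ A.EA)
    (hE : ∀ c : ℂ, finrank ℂ ↥(U0 A ⊓ LinearMap.ker (P.baseChange ℂ - c • 1)) ≤ 2) :
    Kill0 A := by
  intro κ _ _ Θ hΘ hL X h1 h2 h3
  rcases subsingleton_or_nontrivial (U0 A) with hs | hs
  · have h0 : X = 0 := LinearMap.ext fun u => Subsingleton.elim _ _
    rw [h0, DD_zero]
  refine hL X (all_two (thyp hb) (fun D hD => ?_) h1 h2 h3)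
  obtain ⟨Q, hQ⟩ : ∃ Q, Q = rst (cxE_comm_ZA (bc_mem hP)) := ⟨_, rfl⟩
  have hQc : Q ∈ comL (L0 A) := hQ ▸ rst_comL (bc_mem hP)
  have hQe : ∀ u : U0 A, ((Q u : U0 A) : ℂ ⊗[ℚ] A.H1) = P.baseChange ℂ u.1 := fun u => by
    rw [hQ]; rfl
  -- the maps from `D` given by the commutant
  obtain ⟨f, ⟨k, hk, hkf⟩, hf0, c, hf1⟩ := exists_eig (E := D →ₗ[ℂ] U0 A)
    ((comL (L0 A)).map (LinearMap.lcomp ℂ (U0 A) D.subtype)) (by
      intro h
      obtain ⟨u, hu, hu0⟩ := (Submodule.ne_bot_iff _).1 hD.ne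
      have h4 : LinearMap.lcomp ℂ (U0 A) D.subtype 1 ∈
          (comL (L0 A)).map (LinearMap.lcomp ℂ (U0 A) D.subtype) := ⟨1, one_comL, rfl⟩
      rw [h, Submodule.mem_bot] at h4
      exact hu0 (LinearMap.congr_fun h4 ⟨u, hu⟩)) (LinearMap.compRight ℂ Q) (by
      rintro _ ⟨k, hk, rfl⟩
      exact ⟨Q * k, mul_comL hQc hk, rfl⟩)
  have hmap : D.map k ≠ ⊥ := by
    intro h0
    apply hf0
    refine LinearMap.ext fun u => ?_
    have h4 : k u.1 ∈ D.map k := ⟨u.1, u.2, rfl⟩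
    rw [h0, Submodule.mem_bot] at h4
    rw [← hkf]
    exact h4
  obtain ⟨h5, h6⟩ := hD.map hk hmap
  have h7 : (D.map k).map (U0 A).subtype ≤ U0 A ⊓ LinearMap.ker (P.baseChange ℂ - c • 1) := by
    rintro _ ⟨_, ⟨u, hu, rfl⟩, rfl⟩
    refine ⟨(k u).2, ?_⟩
    rw [SetLike.mem_coe, LinearMap.mem_ker, LinearMap.sub_apply, LinearMap.smul_apply,
      Module.End.one_apply, sub_eq_zero]
    have h8 := LinearMap.congr_fun hf1 ⟨u, hu⟩
    rw [← hkf] at h8
    have h9 : Q (k u) = c • k u := h8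
    have h10 := congrArg (fun z : U0 A => (z : ℂ ⊗[ℚ] A.H1)) h9
    simp only [hQe] at h10
    exact h10
  have h8 := (Submodule.finrank_mono h7).trans (hE c)
  rw [Submodule.finrank_map_subtype_eq, h6] at h8
  have h9 := (thyp hb).two_le hD
  omega

/-- There is an operator with the square `-1` on `U0`, so odd forms are zero. -/
theorem Kill0.odd (hK : Kill0 A)
    (hb : ∀ k (R : A.ZA), (R : Module.End ℚ A.H1).baseChange ℂ (b k) = χ k R • b k)
    {κ : Type} [Fintype κ] [DecidableEq κ]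
    {Θ : MultilinearMap ℂ (fun _ : κ => U0 A) ℂ} (hΘ : Alt Θ) (hL : ∀ x ∈ L0 A, DD x Θ = 0)
    (hodd : Odd (Fintype.card κ)) : Θ = 0 := by
  obtain ⟨J, hJ, hJJ⟩ := exists_J A
  have h1 : J ∈ Algebra.adjoin ℂ (cx A.LA : Set (Module.End ℂ (ℂ ⊗[ℚ] A.H1))) :=
    A.cx_adjoin J (cx_mono A.MA_le_NA hJ)
  have h2 : rst (adj_comm_ZA h1) * rst (adj_comm_ZA h1) = -1 :=
    LinearMap.ext fun u => Subtype.ext (by
      rw [Module.End.mul_apply, rst_coe, rst_coe]
      exact LinearMap.congr_fun hJJ u.1)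
  exact even_of_J h2 (hK κ Θ hΘ hL _ (rst_stab h1) (fun k hk => rst_comm hb h1 hk)
    (rst_skew h1 (omC_skew A (fun X hX => A.MA_skew hX) J hJ))) hodd

end Pool.Agent.H845.AC
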