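import Pool.Agent.H845.CM.Dim
import Pool.Graph.R_pool_sql_team_seeded_9f66d723.W5h25.AS.AV

set_option autoImplicit false
set_option linter.unusedSectionVars false
set_option linter.unusedSimpArgs false
set_option linter.unusedVariables false

/-!
# Multilinear forms in any number of variables, and derivations
-/

open Module Function TensorProduct

noncomputable section

namespace Pool.Agent.H845.AC

open Pool.Agent.Y102 Pool.Agent.W516.DR Pool.Agent.H204R3.GP Pool.Agent.W516.KC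
  Pool.Agent.H204R3.SP Pool.Agent.R912 Pool.Agent.W5h25.AS

section DD

variable {𝕜 : Type} [Field 𝕜] {U : Type} [AddCommGroup U] [Module 𝕜 U] {κ : Type} [Fintype κ]
  [DecidableEq κ]

/-- the derivation given by an endomorphism -/
def DD (X : Module.End 𝕜 U) (Ψ : MultilinearMap 𝕜 (fun _ : κ => U) 𝕜) :
    MultilinearMap 𝕜 (fun _ : κ => U) 𝕜 :=
  ∑ k, Ψ.compLinearMap (fun l => if l = k then X else LinearMap.id)

theorem DD_apply (X : Module.End 𝕜 U) (Ψ : MultilinearMap 𝕜 (fun _ : κ => U) 𝕜) (v : κ → U) :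
    DD X Ψ v = ∑ k, Ψ (update v k (X (v k))) := by
  unfold DD
  rw [MultilinearMap.sum_apply]
  refine Finset.sum_congr rfl fun k _ => ?_
  rw [MultilinearMap.compLinearMap_apply]
  congr 1
  funext l
  by_cases hl : l = k
  · subst hl
    rw [update_self, if_pos rfl]
  · rw [update_of_ne hl, if_neg hl]
    rfl

theorem DD_add (X Y : Module.End 𝕜 U) (Ψ : MultilinearMap 𝕜 (fun _ : κ => U) 𝕜) :
    DD (X + Y) Ψ = DD X Ψ + DD Y Ψ := by
  refine MultilinearMap.ext fun v => ?_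
  rw [MultilinearMap.add_apply, DD_apply, DD_apply, DD_apply, ← Finset.sum_add_distrib]
  refine Finset.sum_congr rfl fun k _ => ?_
  rw [LinearMap.add_apply, MultilinearMap.map_update_add]

theorem DD_smul (c : 𝕜) (X : Module.End 𝕜 U) (Ψ : MultilinearMap 𝕜 (fun _ : κ => U) 𝕜) :
    DD (c • X) Ψ = c • DD X Ψ := by
  refine MultilinearMap.ext fun v => ?_
  rw [MultilinearMap.smul_apply, DD_apply, DD_apply, Finset.smul_sum]
  refine Finset.sum_congr rfl fun k _ => ?_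
  rw [LinearMap.smul_apply, MultilinearMap.map_update_smul]

theorem DD_zero (Ψ : MultilinearMap 𝕜 (fun _ : κ => U) 𝕜) : DD 0 Ψ = 0 := by
  have h := DD_smul (0 : 𝕜) (0 : Module.End 𝕜 U) Ψ
  rwa [smul_zero, zero_smul] at h

theorem DD_add_right (X : Module.End 𝕜 U) (Ψ Ψ' : MultilinearMap 𝕜 (fun _ : κ => U) 𝕜) :
    DD X (Ψ + Ψ') = DD X Ψ + DD X Ψ' := by
  refine MultilinearMap.ext fun v => ?_
  rw [MultilinearMap.add_apply, DD_apply, DD_apply, DD_apply, ← Finset.sum_add_distrib]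
  rfl

theorem DD_smul_right (X : Module.End 𝕜 U) (c : 𝕜) (Ψ : MultilinearMap 𝕜 (fun _ : κ => U) 𝕜) :
    DD X (c • Ψ) = c • DD X Ψ := by
  refine MultilinearMap.ext fun v => ?_
  rw [MultilinearMap.smul_apply, DD_apply, DD_apply, Finset.smul_sum]
  rfl

theorem DD_zero_right (X : Module.End 𝕜 U) :
    DD X (0 : MultilinearMap 𝕜 (fun _ : κ => U) 𝕜) = 0 := by
  have h := DD_smul_right X (0 : 𝕜) (0 : MultilinearMap 𝕜 (fun _ : κ => U) 𝕜)
  rwa [smul_zero, zero_smul] at h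

/-- the second derivative -/
theorem DD_DD (X Y : Module.End 𝕜 U) (Ψ : MultilinearMap 𝕜 (fun _ : κ => U) 𝕜) (v : κ → U) :
    DD X (DD Y Ψ) v = ∑ k, Ψ (update v k (Y (X (v k)))) +
      ∑ k, ∑ l ∈ Finset.univ.erase k, Ψ (update (update v k (X (v k))) l (Y (v l))) := by
  rw [DD_apply, ← Finset.sum_add_distrib]
  refine Finset.sum_congr rfl fun k _ => ?_
  rw [DD_apply, ← Finset.add_sum_erase _ _ (Finset.mem_univ k)]
  congr 1
  · rw [update_self, update_idem]
  · refine Finset.sum_congr rfl fun l hl => ?_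
    rw [update_of_ne (Finset.ne_of_mem_erase hl)]

/-- Derivations of commuting endomorphisms commute. -/
theorem DD_comm {X Y : Module.End 𝕜 U} (h : X * Y = Y * X)
    (Ψ : MultilinearMap 𝕜 (fun _ : κ => U) 𝕜) : DD X (DD Y Ψ) = DD Y (DD X Ψ) := by
  have h' : ∀ u, X (Y u) = Y (X u) := fun u => LinearMap.congr_fun h u
  refine MultilinearMap.ext fun v => ?_
  rw [DD_DD, DD_DD]
  congr 1
  · refine Finset.sum_congr rfl fun k _ => ?_
    rw [h']
  · have h1 : ∀ F : κ → κ → 𝕜, ∑ k, ∑ l ∈ Finset.univ.erase k, F k l =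
        ∑ k, ∑ l, if l = k then 0 else F k l := by
      intro F
      refine Finset.sum_congr rfl fun k _ => ?_
      rw [← Finset.add_sum_erase _ _ (Finset.mem_univ k), if_pos rfl, zero_add]
      refine Finset.sum_congr rfl fun l hl => ?_
      rw [if_neg (Finset.ne_of_mem_erase hl)]
    rw [h1, h1, Finset.sum_comm]
    refine Finset.sum_congr rfl fun k _ => Finset.sum_congr rfl fun l _ => ?_
    by_cases hkl : k = l
    · rw [if_pos hkl, if_pos hkl.symm]
    · rw [if_neg hkl, if_neg (Ne.symm hkl), update_comm hkl]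

/-- The form vanishes if two arguments are equal. -/
def Alt (Ψ : MultilinearMap 𝕜 (fun _ : κ => U) 𝕜) : Prop :=
  ∀ (v : κ → U) (i j : κ), i ≠ j → v i = v j → Ψ v = 0

theorem Alt.swap {Ψ : MultilinearMap 𝕜 (fun _ : κ => U) 𝕜} (h : Alt Ψ) (v : κ → U) {i j : κ}
    (hij : i ≠ j) : Ψ (v ∘ Equiv.swap i j) = -Ψ v := by
  let Φ : U [⋀^κ]→ₗ[𝕜] 𝕜 := { Ψ with map_eq_zero_of_eq' := fun v i j h1 h2 => h v i j h2 h1 }
  exact Φ.map_swap v hij

theorem Alt.DD {Ψ : MultilinearMap 𝕜 (fun _ : κ => U) 𝕜} (h : Alt Ψ) (X : Module.End 𝕜 U) :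
    Alt (DD X Ψ) := by
  intro v i j hij hv
  rw [DD_apply, ← Finset.add_sum_erase _ _ (Finset.mem_univ i),
    ← Finset.add_sum_erase _ _ (Finset.mem_erase.2 ⟨hij.symm, Finset.mem_univ j⟩),
    Finset.sum_eq_zero (s := (Finset.univ.erase i).erase j)]
  · rw [add_zero]
    have h1 : update v j (X (v j)) = (update v i (X (v i))) ∘ Equiv.swap i j := by
      funext l
      by_cases hl : l = j
      · subst hl
        rw [update_self, comp_apply, Equiv.swap_apply_right, update_self, hv]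
      · by_cases hl' : l = i
        · subst hl'
          rw [update_of_ne hl, comp_apply, Equiv.swap_apply_left, update_of_ne hij.symm, hv]
        · rw [update_of_ne hl, comp_apply, Equiv.swap_apply_of_ne_of_ne hl' hl,
            update_of_ne hl']
    rw [h1, h.swap _ hij, add_neg_cancel]
  · intro k hk
    have hkj : k ≠ j := (Finset.mem_erase.1 hk).1
    have hki : k ≠ i := (Finset.mem_erase.1 (Finset.mem_erase.1 hk).2).1
    refine h _ i j hij ?_
    rw [update_of_ne hki.symm, update_of_ne hkj.symm, hv]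

theorem Alt.inj {Ψ : MultilinearMap 𝕜 (fun _ : κ => U) 𝕜} (h : Alt Ψ) {n : ℕ} {b : Fin n → U}
    {t : κ → Fin n} (h0 : Ψ (fun l => b (t l)) ≠ 0) : Injective t := by
  intro i j hij
  by_contra hne
  refine h0 (h _ i j hne ?_)
  change b (t i) = b (t j)
  rw [hij]

/-- Diagonal operators on tuples of eigenvectors. -/
theorem DD_diag {Ψ : MultilinearMap 𝕜 (fun _ : κ => U) 𝕜} {n : ℕ} {b : Fin n → U}
    {X : Module.End 𝕜 U} {ν : Fin n → 𝕜} {t : κ → Fin n}
    (hX : ∀ k, X (b (t k)) = ν (t k) • b (t k)) :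
    DD X Ψ (fun l => b (t l)) = (∑ k, ν (t k)) * Ψ (fun l => b (t l)) := by
  rw [DD_apply, Finset.sum_mul]
  refine Finset.sum_congr rfl fun k _ => ?_
  rw [hX, MultilinearMap.map_update_smul, smul_eq_mul]
  congr 2
  exact update_eq_self k (fun l => b (t l))

end DD

section Cplx

variable {U : Type} [AddCommGroup U] [Module ℂ U] {κ : Type} [Fintype κ] [DecidableEq κ]

theorem mem_KL' {X : Module.End ℂ U} {Ψ : MultilinearMap ℂ (fun _ : κ => U) ℂ} :
    X ∈ KL Ψ ↔ DD X Ψ = 0 := by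
  rw [mem_KL]
  constructor
  · intro h
    refine MultilinearMap.ext fun v => ?_
    rw [DD_apply]
    exact h v
  · intro h v
    have h1 := DD_apply X Ψ v
    rw [h] at h1
    exact h1.symm

theorem alt_iff {Ψ : MultilinearMap ℂ (fun _ : κ => U) ℂ} : Alt Ψ ↔ IsAlt Ψ := Iff.rfl

end Cplx

section Rat

variable {W : Type} [AddCommGroup W] [Module ℚ W] {κ : Type} [Fintype κ] [DecidableEq κ]

/-- the derivation of an alternating form -/
def dK (X : Module.End ℚ W) (φ : W [⋀^κ]→ₗ[ℚ] ℚ) : W [⋀^κ]→ₗ[ℚ] ℚ :=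
  { DD X φ.toMultilinearMap with
    map_eq_zero_of_eq' := fun v i j h1 h2 =>
      Alt.DD (fun v i j h2 h1 => φ.map_eq_zero_of_eq v h1 h2) X v i j h2 h1 }

theorem dK_toMul (X : Module.End ℚ W) (φ : W [⋀^κ]→ₗ[ℚ] ℚ) :
    (dK X φ).toMultilinearMap = DD X φ.toMultilinearMap := rfl

theorem dK_apply (X : Module.End ℚ W) (φ : W [⋀^κ]→ₗ[ℚ] ℚ) (v : κ → W) :
    dK X φ v = ∑ k, φ (update v k (X (v k))) := DD_apply X φ.toMultilinearMap v

theorem kills_iff_dK (X : Module.End ℚ W) (φ : W [⋀^κ]→ₗ[ℚ] ℚ) :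
    Kills X φ.toMultilinearMap ↔ dK X φ = 0 := by
  constructor
  · intro h
    refine AlternatingMap.ext fun v => ?_
    rw [dK_apply]
    exact h v
  · intro h v
    have h1 := dK_apply X φ v
    rw [h] at h1
    exact h1.symm

theorem dK_comm {X Y : Module.End ℚ W} (φ : W [⋀^κ]→ₗ[ℚ] ℚ) (h : X * Y = Y * X) :
    dK X (dK Y φ) = dK Y (dK X φ) := by
  refine AlternatingMap.ext fun v => ?_
  have h1 := congrArg (fun F : MultilinearMap ℚ (fun _ : κ => W) ℚ => F v)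
    (DD_comm h φ.toMultilinearMap)
  exact h1

theorem dK_smul_right (X : Module.End ℚ W) (q : ℚ) (φ : W [⋀^κ]→ₗ[ℚ] ℚ) :
    dK X (q • φ) = q • dK X φ := by
  refine AlternatingMap.ext fun v => ?_
  rw [dK_apply, AlternatingMap.smul_apply, dK_apply, Finset.smul_sum]
  rfl

theorem dK_sub_right (X : Module.End ℚ W) (φ φ' : W [⋀^κ]→ₗ[ℚ] ℚ) :
    dK X (φ - φ') = dK X φ - dK X φ' := by
  refine AlternatingMap.ext fun v => ?_
  rw [dK_apply, AlternatingMap.sub_apply, dK_apply, dK_apply, ← Finset.sum_sub_distrib]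
  rfl

theorem dK_zero_right (X : Module.End ℚ W) : dK X (0 : W [⋀^κ]→ₗ[ℚ] ℚ) = 0 := by
  refine AlternatingMap.ext fun v => ?_
  rw [dK_apply]
  exact Finset.sum_eq_zero fun _ _ => rfl

theorem dK_add_left (X Y : Module.End ℚ W) (φ : W [⋀^κ]→ₗ[ℚ] ℚ) (v : κ → W) :
    dK (X + Y) φ v = dK X φ v + dK Y φ v := by
  have h := congrArg (fun F : MultilinearMap ℚ (fun _ : κ => W) ℚ => F v)
    (DD_add X Y φ.toMultilinearMap)
  exact h

theorem dK_smul_left (q : ℚ) (X : Module.End ℚ W) (φ : W [⋀^κ]→ₗ[ℚ] ℚ) (v : κ → W) :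
    dK (q • X) φ v = q * dK X φ v := by
  have h := congrArg (fun F : MultilinearMap ℚ (fun _ : κ => W) ℚ => F v)
    (DD_smul q X φ.toMultilinearMap)
  exact h

variable [FiniteDimensional ℚ W]

/-- the complexification of a form -/
def cm (φ : W [⋀^κ]→ₗ[ℚ] ℚ) : MultilinearMap ℂ (fun _ : κ => ℂ ⊗[ℚ] W) ℂ :=
  bcm (Ω := ℂ) (Module.finBasis ℚ W) φ.toMultilinearMap

theorem cm_one (φ : W [⋀^κ]→ₗ[ℚ] ℚ) (v : κ → W) :
    cm φ (fun l => (1 : ℂ) ⊗ₜ[ℚ] v l) = algebraMap ℚ ℂ (φ v) := bcm_one _ _ _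

theorem alt_cm (φ : W [⋀^κ]→ₗ[ℚ] ℚ) : Alt (cm φ) := isAlt_bcm _ φ

/-- Forms are determined by the values at rational vectors. -/
theorem rat_ext {Ψ Ψ' : MultilinearMap ℂ (fun _ : κ => ℂ ⊗[ℚ] W) ℂ}
    (h : ∀ v : κ → W, Ψ (fun l => (1 : ℂ) ⊗ₜ[ℚ] v l) = Ψ' (fun l => (1 : ℂ) ⊗ₜ[ℚ] v l)) :
    Ψ = Ψ' := by
  refine Basis.ext_multilinear (fun _ => (Module.finBasis ℚ W).baseChange ℂ) fun I => ?_
  simp only [Basis.baseChange_apply]
  exact h fun l => Module.finBasis ℚ W (I l)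

theorem cm_inj {φ φ' : W [⋀^κ]→ₗ[ℚ] ℚ} (h : cm φ = cm φ') : φ = φ' := by
  refine AlternatingMap.ext fun v => ?_
  apply (algebraMap ℚ ℂ).injective
  rw [← cm_one, ← cm_one, h]

theorem cm_der (X : Module.End ℚ W) (φ : W [⋀^κ]→ₗ[ℚ] ℚ) :
    cm (dK X φ) = DD (X.baseChange ℂ) (cm φ) := by
  apply rat_ext
  intro v
  rw [cm_one, DD_apply, dK_apply, map_sum]
  refine Finset.sum_congr rfl fun k _ => ?_
  rw [← cm_one]
  congr 1
  funext l
  by_cases hl : l = k
  · subst hl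
    rw [update_self, update_self, LinearMap.baseChange_tmul]
  · rw [update_of_ne hl, update_of_ne hl]

theorem cm_smul (q : ℚ) (φ : W [⋀^κ]→ₗ[ℚ] ℚ) : cm (q • φ) = (q : ℂ) • cm φ := by
  apply rat_ext
  intro v
  rw [MultilinearMap.smul_apply, cm_one, cm_one, AlternatingMap.smul_apply, smul_eq_mul, map_mul]
  rfl

theorem cm_zero : cm (0 : W [⋀^κ]→ₗ[ℚ] ℚ) = 0 := by
  apply rat_ext
  intro v
  rw [cm_one]
  simp

theorem cm_sub (φ φ' : W [⋀^κ]→ₗ[ℚ] ℚ) : cm (φ - φ') = cm φ - cm φ' := by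
  apply rat_ext
  intro v
  rw [MultilinearMap.sub_apply, cm_one, cm_one, cm_one, AlternatingMap.sub_apply, map_sub]

theorem kills_iff_DD (X : Module.End ℚ W) (φ : W [⋀^κ]→ₗ[ℚ] ℚ) :
    Kills X φ.toMultilinearMap ↔ DD (X.baseChange ℂ) (cm φ) = 0 := by
  rw [kills_iff_dK, ← cm_der]
  constructor
  · intro h
    rw [h, cm_zero]
  · intro h
    apply cm_inj
    rw [h, cm_zero]

end Rat

end Pool.Agent.H845.AC
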