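import Pool.Agent.H845.AC.Fin

set_option autoImplicit false
set_option linter.unusedSectionVars false
set_option linter.unusedSimpArgs false
set_option linter.unusedVariables false

/-!
# Rational criteria for the dimensions of the eigenspaces
-/

open Module Function TensorProduct

noncomputable section

namespace Pool.Agent.H845.AC

open Pool.Agent.Y102 Pool.Agent.W516.DR Pool.Agent.H204R3.GP Pool.Agent.W516.KC
  Pool.Agent.H204R3.SP Pool.Agent.R912 Pool.Agent.W5h25.AS Pool.Agent.H845.CM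

theorem mem_bc_of_cmp {W : Type} [AddCommGroup W] [Module ℚ W] [FiniteDimensional ℚ W]
    (S : Submodule ℚ W)
    {z : ℂ ⊗[ℚ] W} (h : ∀ lam : ℂ →ₗ[ℚ] ℚ, Pool.Agent.W516.DR.cmp lam z ∈ S) :
    z ∈ S.baseChange ℂ := by
  let B := Basis.ofVectorSpace ℚ ℂ
  let e : ℂ ⊗[ℚ] W ≃ₗ[ℚ] (_ →₀ W) := TensorProduct.equivFinsuppOfBasisLeft B
  have h1 : ∀ i, e z i = Pool.Agent.W516.DR.cmp (B.coord i) z := by
    intro i
    clear h
    induction z with
    | zero => simp only [map_zero, Finsupp.zero_apply]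
    | add x y hx hy => rw [map_add, map_add, Finsupp.add_apply, hx, hy]
    | tmul a w =>
      rw [Pool.Agent.W516.DR.cmp_tmul, TensorProduct.equivFinsuppOfBasisLeft_apply_tmul_apply]
      rfl
  have h2 : z = (e z).sum fun i m => B i ⊗ₜ[ℚ] m := by
    conv_lhs => rw [← e.symm_apply_apply z]
    exact TensorProduct.equivFinsuppOfBasisLeft_symm_apply _ _
  rw [h2]
  refine Submodule.sum_mem _ fun i _ => ?_
  have h3 : e z i ∈ S := by rw [h1]; exact h _
  exact Submodule.tmul_mem_baseChange_of_mem _ h3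

/-- The eigenspaces of an operator on a space which is generated by few vectors. -/
theorem finrank_ker_le {E : Type} [AddCommGroup E] [Module ℂ E] [FiniteDimensional ℂ E]
    {ι : Type} [Fintype ι] (Q : Module.End ℂ E) (u : ι → E)
    (hu : Submodule.span ℂ {w | ∃ n : ℕ, ∃ i, w = (Q ^ n) (u i)} = ⊤) (c : ℂ) :
    finrank ℂ (LinearMap.ker (Q - c • 1)) ≤ Fintype.card ι := by
  classical
  have h1 : LinearMap.range (Q - c • 1) ⊔ Submodule.span ℂ (Set.range u) = ⊤ := by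
    rw [eq_top_iff, ← hu, Submodule.span_le]
    rintro _ ⟨n, i, rfl⟩
    induction n with
    | zero => exact Submodule.mem_sup_right (Submodule.subset_span ⟨i, rfl⟩)
    | succ n ih =>
      have h2 : (Q ^ (n + 1)) (u i) = (Q - c • 1) ((Q ^ n) (u i)) + c • (Q ^ n) (u i) := by
        rw [pow_succ', Module.End.mul_apply, LinearMap.sub_apply, LinearMap.smul_apply,
          Module.End.one_apply, sub_add_cancel]
      rw [h2]
      exact Submodule.add_mem _ (Submodule.mem_sup_left ⟨_, rfl⟩) (Submodule.smul_mem _ _ ih)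
  have h2 := Submodule.finrank_add_le_finrank_add_finrank (LinearMap.range (Q - c • 1))
    (Submodule.span ℂ (Set.range u))
  rw [h1, finrank_top] at h2
  have h3 := LinearMap.finrank_range_add_finrank_ker (Q - c • 1)
  have h4 := finrank_range_le_card (R := ℂ) u
  unfold Set.finrank at h4
  omega

variable {g : ℕ} {A : AbVar g} {n : ℕ} {b : Basis (Fin n) ℂ (ℂ ⊗[ℚ] A.H1)}
  {χ : Fin n → (A.ZA →ₗ[ℚ] ℂ)}

variable (A) in
/-- the rational part without type IV -/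
def V0 : Submodule ℚ A.H1 where
  carrier := {v | ∀ R ∈ A.ZA, R v = 0}
  zero_mem' := fun R _ => map_zero _
  add_mem' := fun {u v} hu hv R hR => by rw [map_add, hu R hR, hv R hR, add_zero]
  smul_mem' := fun c u hu R hR => by rw [map_smul, hu R hR, smul_zero]

theorem U0_le : U0 A ≤ (V0 A).baseChange ℂ := by
  intro z hz
  refine mem_bc_of_cmp _ fun lam R hR => ?_
  rw [← cmp_bc, hz ⟨R, hR⟩, map_zero]

theorem gl2_small
    (hb : ∀ k (R : A.ZA), (R : Module.End ℚ A.H1).baseChange ℂ (b k) = χ k R • b k)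
    {P : Module.End ℚ A.H1} (hP : P ∈ A.EA) {ι : Type} [Fintype ι] (u : ι → A.H1)
    (hu : ∀ v, (∀ R ∈ A.ZA, R v = 0) →
      v ∈ Submodule.span ℚ {w | ∃ m : ℕ, ∃ i, w = (P ^ m) (u i)}) (c : ℂ) :
    finrank ℂ ↥(U0 A ⊓ LinearMap.ker (P.baseChange ℂ - c • 1)) ≤ Fintype.card ι := by
  obtain ⟨Q, hQ⟩ : ∃ Q, Q = rst (cxE_comm_ZA (bc_mem hP)) := ⟨_, rfl⟩
  have hQe : ∀ u : U0 A, ((Q u : U0 A) : ℂ ⊗[ℚ] A.H1) = P.baseChange ℂ u.1 := fun u => by
    rw [hQ]; rfl
  have hQn : ∀ (m : ℕ) (u : U0 A), (((Q ^ m) u : U0 A) : ℂ ⊗[ℚ] A.H1) =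
      ((P.baseChange ℂ : Module.End ℂ (ℂ ⊗[ℚ] A.H1)) ^ m) u.1 := by
    intro m
    induction m with
    | zero => intro u; rfl
    | succ m ih => intro u; rw [pow_succ, pow_succ, Module.End.mul_apply, Module.End.mul_apply,
        ih, hQe]
  have hprP : ∀ (m : ℕ) (x : ℂ ⊗[ℚ] A.H1), pr b χ (((P.baseChange ℂ :
      Module.End ℂ (ℂ ⊗[ℚ] A.H1)) ^ m) x) =
      ((P.baseChange ℂ : Module.End ℂ (ℂ ⊗[ℚ] A.H1)) ^ m) (pr b χ x) := by
    intro m
    induction m with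
    | zero => intro x; rfl
    | succ m ih =>
      intro x
      rw [pow_succ, Module.End.mul_apply, ih, Module.End.mul_apply]
      congr 1
      exact LinearMap.congr_fun (pr_comm hb (cxE_comm_ZA (bc_mem hP))) x
  have hone : ∀ (m : ℕ) (v : A.H1), (1 : ℂ) ⊗ₜ[ℚ] ((P ^ m) v) =
      ((P.baseChange ℂ : Module.End ℂ (ℂ ⊗[ℚ] A.H1)) ^ m) ((1 : ℂ) ⊗ₜ[ℚ] v) := by
    intro m
    induction m with
    | zero => intro v; rfl
    | succ m ih =>
      intro v
      rw [pow_succ, pow_succ, Module.End.mul_apply, Module.End.mul_apply, ih,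
        LinearMap.baseChange_tmul]
  let u' : ι → U0 A := fun i => ⟨pr b χ ((1 : ℂ) ⊗ₜ[ℚ] u i), pr_mem hb _⟩
  obtain ⟨M, hM⟩ : ∃ M : Submodule ℂ (U0 A),
      M = Submodule.span ℂ {w | ∃ n : ℕ, ∃ i, w = (Q ^ n) (u' i)} := ⟨_, rfl⟩
  have h1 : ∀ w ∈ Submodule.span ℚ {w | ∃ m : ℕ, ∃ i, w = (P ^ m) (u i)},
      (⟨pr b χ ((1 : ℂ) ⊗ₜ[ℚ] w), pr_mem hb _⟩ : U0 A) ∈ M := by
    intro w hw
    induction hw using Submodule.span_induction with
    | mem w hw =>
      obtain ⟨m, i, rfl⟩ := hw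
      rw [hM]
      refine Submodule.subset_span ⟨m, i, Subtype.ext ?_⟩
      rw [hQn]
      change pr b χ ((1 : ℂ) ⊗ₜ[ℚ] ((P ^ m) (u i))) = _
      rw [hone, hprP]
    | zero =>
      have : (⟨pr b χ ((1 : ℂ) ⊗ₜ[ℚ] 0), pr_mem hb _⟩ : U0 A) = 0 :=
        Subtype.ext (by
          change pr b χ ((1 : ℂ) ⊗ₜ[ℚ] 0) = 0
          rw [tmul_zero, map_zero])
      rw [this]
      exact M.zero_mem
    | add x y _ _ hx hy =>
      have : (⟨pr b χ ((1 : ℂ) ⊗ₜ[ℚ] (x + y)), pr_mem hb _⟩ : U0 A) =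
          ⟨pr b χ ((1 : ℂ) ⊗ₜ[ℚ] x), pr_mem hb _⟩ + ⟨pr b χ ((1 : ℂ) ⊗ₜ[ℚ] y), pr_mem hb _⟩ :=
        Subtype.ext (by
          change pr b χ ((1 : ℂ) ⊗ₜ[ℚ] (x + y)) = pr b χ ((1 : ℂ) ⊗ₜ[ℚ] x) +
            pr b χ ((1 : ℂ) ⊗ₜ[ℚ] y)
          rw [tmul_add, map_add])
      rw [this]
      exact M.add_mem hx hy
    | smul q x _ hx =>
      have : (⟨pr b χ ((1 : ℂ) ⊗ₜ[ℚ] (q • x)), pr_mem hb _⟩ : U0 A) =
          (q : ℂ) • ⟨pr b χ ((1 : ℂ) ⊗ₜ[ℚ] x), pr_mem hb _⟩ :=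
        Subtype.ext (by
          change pr b χ ((1 : ℂ) ⊗ₜ[ℚ] (q • x)) = (q : ℂ) • pr b χ ((1 : ℂ) ⊗ₜ[ℚ] x)
          rw [tmul_smul, ← map_smul]
          congr 1)
      rw [this]
      exact M.smul_mem _ hx
  have h2 : ∀ x ∈ (V0 A).baseChange ℂ, (⟨pr b χ x, pr_mem hb _⟩ : U0 A) ∈ M := by
    intro x hx
    rw [← Submodule.span_eq (V0 A), Submodule.baseChange_span] at hx
    induction hx using Submodule.span_induction with
    | mem x hx =>
      obtain ⟨v, hv, rfl⟩ := hx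
      exact h1 v (hu v hv)
    | zero =>
      have : (⟨pr b χ 0, pr_mem hb _⟩ : U0 A) = 0 := Subtype.ext (map_zero _)
      rw [this]
      exact M.zero_mem
    | add x y _ _ hx hy =>
      have : (⟨pr b χ (x + y), pr_mem hb _⟩ : U0 A) =
          ⟨pr b χ x, pr_mem hb _⟩ + ⟨pr b χ y, pr_mem hb _⟩ := Subtype.ext (map_add _ _ _)
      rw [this]
      exact M.add_mem hx hy
    | smul q x _ hx =>
      have : (⟨pr b χ (q • x), pr_mem hb _⟩ : U0 A) =
          q • ⟨pr b χ x, pr_mem hb _⟩ := Subtype.ext (map_smul _ _ _)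
      rw [this]
      exact M.smul_mem _ hx
  have h3 : M = ⊤ := by
    rw [eq_top_iff]
    intro x _
    have h4 := h2 x.1 (U0_le x.2)
    have h5 : (⟨pr b χ x.1, pr_mem hb _⟩ : U0 A) = x := Subtype.ext (pr_id hb x.2)
    rwa [h5] at h4
  have h4 := finrank_ker_le Q u' (by rw [← hM, h3]) c
  have h5 : U0 A ⊓ LinearMap.ker (P.baseChange ℂ - c • 1) =
      (LinearMap.ker (Q - c • 1)).map (U0 A).subtype := by
    ext x
    constructor
    · rintro ⟨hx1, hx2⟩
      refine ⟨⟨x, hx1⟩, ?_, rfl⟩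
      rw [SetLike.mem_coe, LinearMap.mem_ker, LinearMap.sub_apply, LinearMap.smul_apply,
        Module.End.one_apply, sub_eq_zero] at hx2 ⊢
      exact Subtype.ext (by rw [hQe]; exact hx2)
    · rintro ⟨y, hy, rfl⟩
      rw [SetLike.mem_coe, LinearMap.mem_ker, LinearMap.sub_apply, LinearMap.smul_apply,
        Module.End.one_apply, sub_eq_zero] at hy
      refine ⟨y.2, ?_⟩
      rw [SetLike.mem_coe, LinearMap.mem_ker, LinearMap.sub_apply, LinearMap.smul_apply,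
        Module.End.one_apply, sub_eq_zero]
      have := congrArg (fun z : U0 A => (z : ℂ ⊗[ℚ] A.H1)) hy
      simp only [hQe] at this
      exact this
  rw [h5, Submodule.finrank_map_subtype_eq]
  exact h4

theorem ceig_small
    (hb : ∀ k (R : A.ZA), (R : Module.End ℚ A.H1).baseChange ℂ (b k) = χ k R • b k)
    {ι : Type} [Fintype ι] (u : ι → A.H1)
    (hu : ∀ v, (∀ R ∈ A.ZA, R v = 0) →
      v ∈ Submodule.span ℚ {w | ∃ R ∈ ZC A, ∃ i, w = R (u i)})
    (c : Module.End ℚ A.H1 → ℂ) (hc : ∀ R ∈ A.ZA, c R = 0) :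
    finrank ℂ (ceig A c) ≤ Fintype.card ι := by
  classical
  by_cases h0 : ceig A c = ⊥
  · rw [h0, finrank_bot]
    exact Nat.zero_le _
  obtain ⟨q, hq, hq0⟩ := (Submodule.ne_bot_iff _).1 h0
  have hle : ceig A c ≤ U0 A := fun x hx R => by
    rw [hx R ⟨R.2.1, R.2.2.2⟩, hc R R.2, zero_smul]
  -- the scalars
  have hsc : ∀ z ∈ cx (ZC A), ∃ μ : ℂ, ∀ x ∈ ceig A c, z x = μ • x := by
    intro z hz
    induction hz using Submodule.span_induction with
    | mem z hz =>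
      obtain ⟨R, hR, rfl⟩ := hz
      exact ⟨c R, fun x hx => hx R hR⟩
    | zero => exact ⟨0, fun x _ => by rw [zero_smul, LinearMap.zero_apply]⟩
    | add x y _ _ hx hy =>
      obtain ⟨μ, h1⟩ := hx
      obtain ⟨μ', h2⟩ := hy
      exact ⟨μ + μ', fun x hx => by rw [LinearMap.add_apply, h1 x hx, h2 x hx, add_smul]⟩
    | smul r x _ hx =>
      obtain ⟨μ, h1⟩ := hx
      exact ⟨r * μ, fun x hx => by rw [LinearMap.smul_apply, h1 x hx, mul_smul]⟩
  obtain ⟨f, hf⟩ : ∃ f : (ℂ ⊗[ℚ] A.H1) →ₗ[ℂ] ℂ, f q = 1 := by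
    obtain ⟨f, hf⟩ := Module.Projective.exists_dual_ne_zero ℂ hq0
    exact ⟨(f q)⁻¹ • f, by rw [LinearMap.smul_apply, smul_eq_mul, inv_mul_cancel₀ hf]⟩
  let χ' : Module.Dual ℂ (cx (ZC A)) :=
    { toFun := fun z => f (z.1 q)
      map_add' := fun x y => by rw [Submodule.coe_add, LinearMap.add_apply, map_add]
      map_smul' := fun r x => by
        rw [Submodule.coe_smul, LinearMap.smul_apply, map_smul, RingHom.id_apply] }
  have hχ' : ∀ z (hz : z ∈ cx (ZC A)), ∀ x ∈ ceig A c, z x = χ' ⟨z, hz⟩ • x := by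
    intro z hz x hx
    obtain ⟨μ, hμ⟩ := hsc z hz
    have h1 : χ' ⟨z, hz⟩ = μ := by
      change f (z q) = μ
      rw [hμ q hq, map_smul, hf, smul_eq_mul, mul_one]
    rw [h1, hμ x hx]
  have hcomm := cx_commutes A (S := ZC A) (T := ZC A) fun X hX Y hY => ZC_comm hX hY
  obtain ⟨π, hπ, r, hr, hπq, hzπ⟩ := exists_proj (cx (ZC A)) hcomm
    (cx_mul (A := A) (S := ZC A) fun X hX Y hY => ZC_mul hX hY) (cx_one (A := A) ZC_one)
    (fun Z hZ' h0 => trace_nd hZ' h0) χ' hq0 (fun z hz => hχ' z hz q hq)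
  have hπr : χ' ⟨π, hπ⟩ = r := by
    have h1 := hχ' π hπ q hq
    rw [hπq] at h1
    exact (smul_left_injective ℂ hq0 h1).symm
  -- the eigenspace is in the span
  have h1 : ceig A c ≤ Submodule.span ℂ (Set.range fun i => π ((1 : ℂ) ⊗ₜ[ℚ] u i)) := by
    intro x hx
    obtain ⟨M, hM⟩ : ∃ M, M = Submodule.span ℂ (Set.range fun i => π ((1 : ℂ) ⊗ₜ[ℚ] u i)) :=
      ⟨_, rfl⟩
    rw [← hM]
    have h2 : ∀ w ∈ Submodule.span ℚ {w | ∃ R ∈ ZC A, ∃ i, w = R (u i)},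
        π ((1 : ℂ) ⊗ₜ[ℚ] w) ∈ M := by
      intro w hw
      induction hw using Submodule.span_induction with
      | mem w hw =>
        obtain ⟨R, hR, i, rfl⟩ := hw
        have h3 : π ((1 : ℂ) ⊗ₜ[ℚ] R (u i)) =
            χ' ⟨_, bc_mem hR⟩ • π ((1 : ℂ) ⊗ₜ[ℚ] u i) := by
          have h4 := LinearMap.congr_fun (hcomm π hπ _ (bc_mem hR)) ((1 : ℂ) ⊗ₜ[ℚ] u i)
          rw [Module.End.mul_apply, LinearMap.baseChange_tmul] at h4
          rw [h4]
          exact LinearMap.congr_fun (hzπ _ (bc_mem hR)) ((1 : ℂ) ⊗ₜ[ℚ] u i)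
        rw [h3, hM]
        exact Submodule.smul_mem _ _ (Submodule.subset_span ⟨i, rfl⟩)
      | zero => rw [tmul_zero, map_zero]; exact M.zero_mem
      | add x y _ _ hx hy => rw [tmul_add, map_add]; exact M.add_mem hx hy
      | smul s x _ hx =>
        have h3 : (1 : ℂ) ⊗ₜ[ℚ] (s • x) = (s : ℂ) • ((1 : ℂ) ⊗ₜ[ℚ] x) := by
          rw [tmul_smul]
          exact (algebraMap_smul ℂ s ((1 : ℂ) ⊗ₜ[ℚ] x)).symm
        rw [h3, map_smul]
        exact M.smul_mem _ hx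
    have h3 : ∀ x ∈ (V0 A).baseChange ℂ, π x ∈ M := by
      intro x hx
      rw [← Submodule.span_eq (V0 A), Submodule.baseChange_span] at hx
      induction hx using Submodule.span_induction with
      | mem x hx =>
        obtain ⟨v, hv, rfl⟩ := hx
        exact h2 v (hu v hv)
      | zero => rw [map_zero]; exact M.zero_mem
      | add x y _ _ hx hy => rw [map_add]; exact M.add_mem hx hy
      | smul s x _ hx => rw [map_smul]; exact M.smul_mem _ hx
    have h4 := h3 x (U0_le (hle hx))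
    rw [hχ' π hπ x hx, hπr] at h4
    have h5 := M.smul_mem r⁻¹ h4
    rwa [smul_smul, inv_mul_cancel₀ hr, one_smul] at h5
  refine (Submodule.finrank_mono h1).trans ?_
  exact finrank_range_le_card (R := ℂ) _

end Pool.Agent.H845.AC
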