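import Pool.Agent.H845.AC.Wts

set_option autoImplicit false
set_option linter.unusedSectionVars false
set_option linter.unusedSimpArgs false
set_option linter.unusedVariables false

/-!
# The decomposition of a class of any degree
-/

open Module Function TensorProduct

noncomputable section

namespace Pool.Agent.H845.AC

open Pool.Agent.Y102 Pool.Agent.W516.DR Pool.Agent.H204R3.GP Pool.Agent.W516.KC
  Pool.Agent.H204R3.SP Pool.Agent.R912 Pool.Agent.W5h25.AS Pool.Agent.H845.CM

variable {g : ℕ} {A : AbVar g} {n : ℕ} {b : Basis (Fin n) ℂ (ℂ ⊗[ℚ] A.H1)}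
  {χ : Fin n → (A.ZA →ₗ[ℚ] ℂ)} {σ : Equiv.Perm (Fin n)} {T : Finset (Fin n)}
  {κ : Type} [Fintype κ] [DecidableEq κ]
  {Ψ : MultilinearMap ℂ (fun _ : κ => ℂ ⊗[ℚ] A.H1) ℂ}

/-- The support of the exceptional part. -/
def Good (χ : Fin n → (A.ZA →ₗ[ℚ] ℂ)) (σ : Equiv.Perm (Fin n)) (T : Finset (Fin n))
    (t : κ → Fin n) : Prop :=
  ((∀ f : Fin n → ℂ, (∀ k, χ k = 0 → f k = 0) → ∑ k, f (t k) = ∑ x ∈ T, f x) ∧
    ∀ k, χ (t k) = 0 ∨ t k ∈ T) ∨
  ((∀ f : Fin n → ℂ, (∀ k, χ k = 0 → f k = 0) → ∑ k, f (t k) = ∑ x ∈ T, f (σ x)) ∧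
    ∀ k, χ (t k) = 0 ∨ σ.symm (t k) ∈ T)

theorem good_of (H : Rel χ σ T) (W : Wt3' χ T b Ψ) {P : A.ZA} {c : ℂ} (hc : c ≠ 0)
    (hP : ∀ k, χ k P = sg χ T k * c) {t : κ → Fin n} (hinj : Injective t)
    (hne : Ψ (fun l => b (t l)) ≠ 0) (h0 : (∑ k, χ (t k)) P ≠ 0) : Good χ σ T t := by
  classical
  obtain ⟨Kp, hKp⟩ : ∃ Kp : Finset κ, Kp = Finset.univ.filter fun k => t k ∈ T := ⟨_, rfl⟩
  obtain ⟨Km, hKm⟩ : ∃ Km : Finset κ, Km = Finset.univ.filter fun k => σ.symm (t k) ∈ T :=
    ⟨_, rfl⟩
  have mp : ∀ k, k ∈ Kp ↔ t k ∈ T := fun k => by rw [hKp]; simp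
  have mm : ∀ k, k ∈ Km ↔ σ.symm (t k) ∈ T := fun k => by rw [hKm]; simp
  have hdis : Disjoint Kp Km := by
    rw [Finset.disjoint_left]
    intro k h1 h2
    rw [mp] at h1
    rw [mm] at h2
    apply H.canc _ h1 _ h2
    rw [H.opp_symm, add_neg_cancel]
  have hsplit : ∀ f : Fin n → ℂ, (∀ k, χ k = 0 → f k = 0) →
      ∑ k, f (t k) = ∑ k ∈ Kp, f (t k) + ∑ k ∈ Km, f (t k) := by
    intro f hf
    rw [← Finset.sum_union hdis]
    symm
    refine Finset.sum_subset (Finset.subset_univ _) fun k _ hk => hf _ ?_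
    by_contra hne'
    apply hk
    rcases H.all _ hne' with h1 | h1
    · exact Finset.mem_union_left _ ((mp k).2 h1)
    · exact Finset.mem_union_right _ ((mm k).2 h1)
  have mapp : Kp.map ⟨t, hinj⟩ ⊆ T := by
    intro x hx
    obtain ⟨k, hk, rfl⟩ := Finset.mem_map.1 hx
    exact (mp k).1 hk
  have mapm : Km.map ⟨fun k => σ.symm (t k), σ.symm.injective.comp hinj⟩ ⊆ T := by
    intro x hx
    obtain ⟨k, hk, rfl⟩ := Finset.mem_map.1 hx
    exact (mm k).1 hk
  have cp := Finset.card_le_card mapp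
  have cm' := Finset.card_le_card mapm
  rw [Finset.card_map, H.card] at cp cm'
  -- the value of the weight at `P`
  have hval : (∑ k, χ (t k)) P = ((Kp.card : ℂ) - Km.card) * c := by
    rw [LinearMap.sum_apply, hsplit (fun k => χ k P) (fun k hk => by rw [hk, LinearMap.zero_apply])]
    have h1 : ∑ k ∈ Kp, χ (t k) P = ∑ k ∈ Kp, c :=
      Finset.sum_congr rfl fun k hk => by rw [hP, sg_of_eq ((mp k).1 hk) rfl, one_mul]
    have h2 : ∑ k ∈ Km, χ (t k) P = ∑ k ∈ Km, -c :=
      Finset.sum_congr rfl fun k hk => by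
        rw [hP, H.sg_of_neg ((mm k).1 hk) (by rw [H.opp_symm, neg_neg]), neg_one_mul]
    rw [h1, h2, Finset.sum_const, Finset.sum_const, nsmul_eq_mul, nsmul_eq_mul]
    ring
  have hT4 : (∑ x ∈ T, χ x) P = 4 * c := by
    rw [LinearMap.sum_apply, Finset.sum_congr rfl fun t ht => by rw [hP, sg_of_eq ht rfl, one_mul],
      Finset.sum_const, H.card, nsmul_eq_mul]
    norm_num
  have fin : ∀ m : ℤ, (∑ k, χ (t k)) P = (m : ℂ) * c → (Kp.card : ℤ) - Km.card = m := by
    intro m hm
    rw [hval] at hm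
    have h1 := mul_right_cancel₀ hc hm
    exact_mod_cast h1
  rcases W t hne with h | h | h
  · rw [h, LinearMap.zero_apply] at h0
    exact absurd rfl h0
  · have h1 := fin 4 (by rw [h, hT4]; norm_num)
    have c4 : Kp.card = 4 := by omega
    have c0 : Km.card = 0 := by omega
    rw [Finset.card_eq_zero] at c0
    left
    refine ⟨fun f hf => ?_, fun k => ?_⟩
    · have h2 : Kp.map ⟨t, hinj⟩ = T := Finset.eq_of_subset_of_card_le mapp (by
        rw [Finset.card_map, c4, H.card])
      rw [hsplit f hf, c0, Finset.sum_empty, add_zero, ← h2, Finset.sum_map]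
      rfl
    · by_cases h3 : χ (t k) = 0
      · exact Or.inl h3
      · right
        refine (H.all _ h3).resolve_right fun h4 => ?_
        have h5 := (mm k).2 h4
        rw [c0] at h5
        exact absurd h5 (Finset.notMem_empty _)
  · have h1 := fin (-4) (by rw [h, LinearMap.neg_apply, hT4]; push_cast; ring)
    have c4 : Km.card = 4 := by omega
    have c0 : Kp.card = 0 := by omega
    rw [Finset.card_eq_zero] at c0
    right
    refine ⟨fun f hf => ?_, fun k => ?_⟩
    · have h2 : Km.map ⟨fun k => σ.symm (t k), σ.symm.injective.comp hinj⟩ = T :=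
        Finset.eq_of_subset_of_card_le mapm (by rw [Finset.card_map, c4, H.card])
      rw [hsplit f hf, c0, Finset.sum_empty, zero_add, ← h2, Finset.sum_map]
      refine Finset.sum_congr rfl fun k _ => ?_
      change f (t k) = f (σ (σ.symm (t k)))
      rw [Equiv.apply_symm_apply]
    · by_cases h3 : χ (t k) = 0
      · exact Or.inl h3
      · right
        refine (H.all _ h3).resolve_left fun h4 => ?_
        have h5 := (mp k).2 h4
        rw [c0] at h5
        exact absurd h5 (Finset.notMem_empty _)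

/-- `w` is linear over `P` in exactly four variables, on which `P ^ 2 = - r`, and the other variables
are in the kernel of `P`. -/
def Weil4 {W : Type} [AddCommGroup W] [Module ℚ W] (P : Module.End ℚ W) (r : ℚ)
    (w : W [⋀^κ]→ₗ[ℚ] ℚ) : Prop :=
  (∀ v i j, i ≠ j → w (update (update v i (P (v i))) j (P (P (v j)))) =
    w (update (update v i (P (P (v i)))) j (P (v j)))) ∧
  ∀ v, ∑ i, w (update v i (P (P (v i)))) = -(4 * r * w v)

theorem two_up {U : Type} [AddCommGroup U] [Module ℂ U]
    (Φ : MultilinearMap ℂ (fun _ : κ => U) ℂ) (N N' : Module.End ℂ U) {i j : κ} (hij : i ≠ j)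
    (v : κ → U) : Φ.compLinearMap (fun l => if l = i then N else if l = j then N' else 1) v =
      Φ (update (update v i (N (v i))) j (N' (v j))) := by
  rw [MultilinearMap.compLinearMap_apply]
  congr 1
  funext l
  by_cases h1 : l = j
  · subst h1
    rw [if_neg (Ne.symm hij), if_pos rfl, update_self]
  · rw [update_of_ne h1]
    by_cases h2 : l = i
    · subst h2
      rw [if_pos rfl, update_self]
    · rw [if_neg h2, if_neg h1, update_of_ne h2]
      rfl

/-- **The decomposition.** -/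
theorem split' (H : Rel χ σ T)
    (hb : ∀ k (R : A.ZA), (R : Module.End ℚ A.H1).baseChange ℂ (b k) = χ k R • b k)
    {φ : A.H1 [⋀^κ]→ₗ[ℚ] ℚ} (W : Wt3' χ T b (cm φ)) {P : A.ZA} {c : ℂ} (hc : c ≠ 0)
    (hP : ∀ k, χ k P = sg χ T k * c) {r : ℚ} (hr : (r : ℂ) = -(c * c)) :
    ∃ q : ℚ, (∀ R ∈ A.ZA, dK R (φ - q • dK (P : Module.End ℚ A.H1)
      (dK (P : Module.End ℚ A.H1) φ)) = 0) ∧
      Weil4 (P : Module.End ℚ A.H1) r (q • dK (P : Module.End ℚ A.H1)
        (dK (P : Module.End ℚ A.H1) φ)) ∧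
      ∀ t : κ → Fin n, cm (q • dK (P : Module.End ℚ A.H1) (dK (P : Module.End ℚ A.H1) φ))
        (fun l => b (t l)) ≠ 0 → Good χ σ T t := by
  have hr0 : (r : ℂ) ≠ 0 := by
    rw [hr]
    exact neg_ne_zero.2 (mul_ne_zero hc hc)
  have hTP : (∑ t ∈ T, χ t) P = 4 * c := by
    rw [LinearMap.sum_apply, Finset.sum_congr rfl fun t ht => by rw [hP, sg_of_eq ht rfl, one_mul],
      Finset.sum_const, H.card, nsmul_eq_mul]
    norm_num
  obtain ⟨q, hq⟩ : ∃ q : ℚ, q = -(16 * r)⁻¹ := ⟨_, rfl⟩
  obtain ⟨w, hw⟩ : ∃ w, w = q • dK (P : Module.End ℚ A.H1) (dK (P : Module.End ℚ A.H1) φ) :=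
    ⟨_, rfl⟩
  have hcw : ∀ t : κ → Fin n, cm w (fun l => b (t l)) =
      (q : ℂ) * ((∑ k, χ (t k)) P * ((∑ k, χ (t k)) P * cm φ (fun l => b (t l)))) := by
    intro t
    rw [hw, cm_smul, cm_der, cm_der, MultilinearMap.smul_apply, wt hb, wt hb, smul_eq_mul]
  have hsupp : ∀ t : κ → Fin n, cm w (fun l => b (t l)) ≠ 0 → Good χ σ T t := by
    intro t ht
    rw [hcw] at ht
    have h1 := right_ne_zero_of_mul (right_ne_zero_of_mul (right_ne_zero_of_mul ht))
    have h2 := left_ne_zero_of_mul (right_ne_zero_of_mul ht)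
    exact good_of H W hc hP ((alt_cm φ).inj h1) h1 h2
  -- values of the eigenvalues of `P` on the support
  have hsq : ∀ x ∈ T, χ x P = c := fun x hx => by rw [hP, sg_of_eq hx rfl, one_mul]
  have hsq' : ∀ x ∈ T, χ (σ x) P = -c := fun x hx => by
    rw [H.opp, LinearMap.neg_apply, hsq x hx]
  refine ⟨q, fun R hR => ?_, ?_, ?_⟩
  · rw [← hw]
    apply cm_inj
    rw [cm_zero, cm_der, cm_sub]
    refine Basis.ext_multilinear (fun _ => b) fun t => ?_
    rw [MultilinearMap.zero_apply]
    have h1 := wt (Ψ := cm φ - cm w) hb ⟨R, hR⟩ t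
    refine h1.trans ?_
    rw [MultilinearMap.sub_apply, hcw]
    by_cases h0 : cm φ (fun l => b (t l)) = 0
    · rw [h0]
      ring
    · rcases W t h0 with h | h | h
      · rw [h, LinearMap.zero_apply, zero_mul]
      · rw [h, hTP, hq]
        push_cast
        rw [hr]
        field_simp
        ring
      · rw [h, LinearMap.neg_apply, LinearMap.neg_apply, hTP, hq]
        push_cast
        rw [hr]
        field_simp
        ring
  · rw [← hw]
    obtain ⟨N, hN⟩ : ∃ N : Module.End ℂ (ℂ ⊗[ℚ] A.H1), N = (P : Module.End ℚ A.H1).baseChange ℂ :=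
      ⟨_, rfl⟩
    have hNb : ∀ k, N (b k) = χ k P • b k := fun k => by rw [hN]; exact hb k P
    have hNN : ∀ k, (N * N) (b k) = (χ k P * χ k P) • b k := fun k => by
      rw [Module.End.mul_apply, hNb, map_smul, hNb, smul_smul]
    have hN1 : ∀ u : A.H1, N ((1 : ℂ) ⊗ₜ[ℚ] u) = (1 : ℂ) ⊗ₜ[ℚ] (P : Module.End ℚ A.H1) u := by
      intro u
      rw [hN, LinearMap.baseChange_tmul]
    have hN2 : ∀ u : A.H1, (N * N) ((1 : ℂ) ⊗ₜ[ℚ] u) =
        (1 : ℂ) ⊗ₜ[ℚ] (P : Module.End ℚ A.H1) ((P : Module.End ℚ A.H1) u) := by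
      intro u
      rw [Module.End.mul_apply, hN1, hN1]
    have up1 : ∀ (v : κ → A.H1) (i : κ) (u : A.H1), (fun l => (1 : ℂ) ⊗ₜ[ℚ] update v i u l) =
        update (fun l => (1 : ℂ) ⊗ₜ[ℚ] v l) i ((1 : ℂ) ⊗ₜ[ℚ] u) := by
      intro v i u
      funext l
      by_cases hl : l = i
      · subst hl
        rw [update_self, update_self]
      · rw [update_of_ne hl, update_of_ne hl]
    refine ⟨fun v i j hij => ?_, fun v => ?_⟩
    · have key : (cm w).compLinearMap (fun l => if l = i then N else if l = j then N * N else 1) =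
          (cm w).compLinearMap (fun l => if l = i then N * N else if l = j then N else 1) := by
        refine Basis.ext_multilinear (fun _ => b) fun t => ?_
        rw [two_up _ _ _ hij, two_up _ _ _ hij, hNb, hNN, hNN, hNb,
          MultilinearMap.map_update_smul, MultilinearMap.map_update_smul,
          update_comm hij, update_comm hij, MultilinearMap.map_update_smul,
          MultilinearMap.map_update_smul, smul_smul, smul_smul]
        have e1 : update (update (fun l => b (t l)) j (b (t j))) i (b (t i)) =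
            fun l => b (t l) := by
          rw [update_eq_self j (fun l => b (t l)), update_eq_self i (fun l => b (t l))]
        rw [e1]
        by_cases h0 : cm w (fun l => b (t l)) = 0
        · rw [h0, smul_zero, smul_zero]
        · congr 1
          have hz : ∀ k, χ k = 0 → χ k P = 0 := fun k hk => by rw [hk, LinearMap.zero_apply]
          rcases hsupp t h0 with ⟨-, h⟩ | ⟨-, h⟩
          · rcases h i with h1 | h1 <;> rcases h j with h2 | h2
            · rw [hz _ h1]; ring
            · rw [hz _ h1]; ring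
            · rw [hz _ h2]; ring
            · rw [hsq _ h1, hsq _ h2]; ring
          · have hm : ∀ k, σ.symm (t k) ∈ T → χ (t k) P = -c := fun k hk => by
              have := hsq' _ hk
              rwa [Equiv.apply_symm_apply] at this
            rcases h i with h1 | h1 <;> rcases h j with h2 | h2
            · rw [hz _ h1]; ring
            · rw [hz _ h1]; ring
            · rw [hz _ h2]; ring
            · rw [hm _ h1, hm _ h2]; ring
      have h1 := congrArg (fun F : MultilinearMap ℂ (fun _ : κ => ℂ ⊗[ℚ] A.H1) ℂ =>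
        F (fun l => (1 : ℂ) ⊗ₜ[ℚ] v l)) key
      simp only [two_up _ _ _ hij, hN1, hN2] at h1
      apply (algebraMap ℚ ℂ).injective
      rw [← cm_one, ← cm_one, up1, up1, up1, up1]
      exact h1
    · have key : DD (N * N) (cm w) = (-(4 * r : ℂ)) • cm w := by
        refine Basis.ext_multilinear (fun _ => b) fun t => ?_
        rw [DD_diag (ν := fun k => χ k P * χ k P) (fun k => hNN (t k)),
          MultilinearMap.smul_apply, smul_eq_mul]
        by_cases h0 : cm w (fun l => b (t l)) = 0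
        · rw [h0, mul_zero, mul_zero]
        · congr 1
          have hz : ∀ k, χ k = 0 → χ k P * χ k P = 0 := fun k hk => by
            rw [hk, LinearMap.zero_apply, zero_mul]
          rcases hsupp t h0 with ⟨h, -⟩ | ⟨h, -⟩
          · rw [h _ hz, Finset.sum_congr rfl fun x hx => by rw [hsq x hx], Finset.sum_const,
              H.card, hr, nsmul_eq_mul]
            push_cast
            ring
          · rw [h _ hz, Finset.sum_congr rfl fun x hx => by rw [hsq' x hx], Finset.sum_const,
              H.card, hr, nsmul_eq_mul]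
            push_cast
            ring
      have h1 := congrArg (fun F : MultilinearMap ℂ (fun _ : κ => ℂ ⊗[ℚ] A.H1) ℂ =>
        F (fun l => (1 : ℂ) ⊗ₜ[ℚ] v l)) key
      simp only [DD_apply, hN2, MultilinearMap.smul_apply, cm_one, smul_eq_mul] at h1
      apply (algebraMap ℚ ℂ).injective
      rw [map_sum, map_neg, map_mul, map_mul]
      simp only [← up1, cm_one] at h1
      rw [h1]
      have e1 : (algebraMap ℚ ℂ) 4 = 4 := by norm_num
      rw [e1]
      change -(4 * (r : ℂ)) * _ = -(4 * (r : ℂ) * _)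
      ring
  · rw [← hw]
    exact hsupp

end Pool.Agent.H845.AC
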