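import Pool.Agent.H845.AC.Gen

set_option autoImplicit false
set_option linter.unusedSectionVars false
set_option linter.unusedSimpArgs false
set_option linter.unusedVariables false

/-!
# The weights of a class of any degree
-/

open Module Function TensorProduct

noncomputable section

namespace Pool.Agent.H845.AC

open Pool.Agent.Y102 Pool.Agent.W516.DR Pool.Agent.H204R3.GP Pool.Agent.W516.KC
  Pool.Agent.H204R3.SP Pool.Agent.R912 Pool.Agent.W5h25.AS Pool.Agent.H845.CM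

section Comb

variable {n : ℕ} {M N : Type} [AddCommGroup M] [AddCommGroup N] {χ : Fin n → M}
    {ρ : M →+ N} {σ : Equiv.Perm (Fin n)}

/-- removing pairs of opposite characters -/
theorem reduce (H : Chars χ ρ σ) (m : ℕ) : ∀ S : Finset (Fin n), S.card ≤ m →
    (∀ x ∈ S, χ x ≠ 0) → ∃ S' ⊆ S, ∑ x ∈ S', χ x = ∑ x ∈ S, χ x ∧
      (∀ x ∈ S', ∀ y ∈ S', χ x + χ y ≠ 0) ∧ Even (S.card + S'.card) := by
  induction m with
  | zero =>
    intro S hS hne
    have h0 : S = ∅ := Finset.card_eq_zero.1 (by omega)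
    subst h0
    exact ⟨∅, Finset.Subset.refl _, rfl, by simp, by simp⟩
  | succ m ih =>
    intro S hS hne
    by_cases hc : ∃ x ∈ S, ∃ y ∈ S, χ x + χ y = 0
    · obtain ⟨x, hx, y, hy, hxy⟩ := hc
      have hxy' : x ≠ y := by
        rintro rfl
        exact hne x hx (H.tM _ hxy)
      have hy' : y ∈ S.erase x := Finset.mem_erase.2 ⟨hxy'.symm, hy⟩
      have hcard : ((S.erase x).erase y).card + 2 = S.card := by
        rw [Finset.card_erase_of_mem hy', Finset.card_erase_of_mem hx]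
        have h1 : 2 ≤ S.card := Finset.one_lt_card.2 ⟨x, hx, y, hy, hxy'⟩
        omega
      obtain ⟨S', hS', e1, e2, e3⟩ := ih ((S.erase x).erase y) (by omega) fun z hz =>
        hne z (Finset.mem_of_mem_erase (Finset.mem_of_mem_erase hz))
      refine ⟨S', hS'.trans ((Finset.erase_subset _ _).trans (Finset.erase_subset _ _)), ?_, e2, ?_⟩
      · rw [e1, ← Finset.add_sum_erase S χ hx, ← Finset.add_sum_erase (S.erase x) χ hy',
          ← add_assoc, hxy, zero_add]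
      · rw [← hcard]
        obtain ⟨q, hq⟩ := e3
        exact ⟨q + 1, by omega⟩
    · push Not at hc
      exact ⟨S, Finset.Subset.refl _, rfl, hc, ⟨S.card, rfl⟩⟩

theorem size (H : Chars χ ρ σ)
    (h8 : ∀ S : Finset (Fin n), (∀ x ∈ S, χ x ≠ 0) → S.card ≤ 8) {S : Finset (Fin n)}
    (hne : ∀ x ∈ S, χ x ≠ 0) (hc : ∀ x ∈ S, ∀ y ∈ S, χ x + χ y ≠ 0) : S.card ≤ 4 := by
  classical
  have hdis : Disjoint S (S.map σ.toEmbedding) := by
    rw [Finset.disjoint_left]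
    intro k hk hk'
    obtain ⟨t, ht, rfl⟩ := Finset.mem_map.1 hk'
    apply hc _ hk t ht
    change χ (σ t) + χ t = 0
    rw [H.opp, neg_add_cancel]
  have h1 := h8 (S ∪ S.map σ.toEmbedding) (by
    intro x hx
    rcases Finset.mem_union.1 hx with hx | hx
    · exact hne x hx
    · obtain ⟨t, ht, rfl⟩ := Finset.mem_map.1 hx
      exact H.ne_σ (hne t ht))
  rw [Finset.card_union_of_disjoint hdis, Finset.card_map] at h1
  omega

/-- an even number of nonzero characters with a relation -/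
theorem even_rel (H : Chars χ ρ σ)
    (h8 : ∀ S : Finset (Fin n), (∀ x ∈ S, χ x ≠ 0) → S.card ≤ 8) {S : Finset (Fin n)}
    (hne : ∀ x ∈ S, χ x ≠ 0) (heven : Even S.card) (hrel : ρ (∑ x ∈ S, χ x) = 0) :
    ∑ x ∈ S, χ x = 0 ∨ ∃ S' : Finset (Fin n), (∀ x ∈ S', χ x ≠ 0) ∧ S'.card = 4 ∧
      ρ (∑ x ∈ S', χ x) = 0 ∧ (∀ x ∈ S', ∀ y ∈ S', χ x + χ y ≠ 0) ∧
      ∑ x ∈ S', χ x = ∑ x ∈ S, χ x := by
  obtain ⟨S', h1, h2, h3, h4⟩ := reduce H _ S le_rfl hne
  have hne' : ∀ x ∈ S', χ x ≠ 0 := fun x hx => hne x (h1 hx)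
  have h5 := size H h8 hne' h3
  rw [← h2] at hrel ⊢
  have h6 : S'.card = 0 ∨ S'.card = 2 ∨ S'.card = 4 := by
    obtain ⟨p, hp⟩ := heven
    obtain ⟨q, hq⟩ := h4
    omega
  rcases h6 with h6 | h6 | h6
  · left
    rw [Finset.card_eq_zero.1 h6, Finset.sum_empty]
  · exfalso
    obtain ⟨x, y, hxy, rfl⟩ := Finset.card_eq_two.1 h6
    rw [Finset.sum_pair hxy] at hrel
    exact h3 x (by simp) y (by simp) (H.two (hne' x (by simp)) (hne' y (by simp)) hrel)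
  · exact Or.inr ⟨S', hne', h6, hrel, h3, rfl⟩

end Comb

variable {g : ℕ} {A : AbVar g} {n : ℕ} {b : Basis (Fin n) ℂ (ℂ ⊗[ℚ] A.H1)}
  {χ : Fin n → (A.ZA →ₗ[ℚ] ℂ)} {σ : Equiv.Perm (Fin n)} {T : Finset (Fin n)}
  {κ : Type} [Fintype κ] [DecidableEq κ]
  {Ψ : MultilinearMap ℂ (fun _ : κ => ℂ ⊗[ℚ] A.H1) ℂ}

/-- **The weights of a class.** -/
theorem weights' (hK : Kill0 A) (hA : CMIV A)
    (hb : ∀ k (R : A.ZA), (R : Module.End ℚ A.H1).baseChange ℂ (b k) = χ k R • b k)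
    (hσ : ∀ k, χ (σ k) = -χ k) (h8 : ∀ S : Finset (Fin n), (∀ x ∈ S, χ x ≠ 0) → S.card ≤ 8)
    (hκ : Even (Fintype.card κ)) (hAlt : Alt Ψ) (hL : ∀ X ∈ A.LA, DD (X.baseChange ℂ) Ψ = 0)
    {t : κ → Fin n} (hne : Ψ (fun l => b (t l)) ≠ 0) : ∑ k, χ (t k) = 0 ∨
      ∃ S' : Finset (Fin n), (∀ x ∈ S', χ x ≠ 0) ∧ S'.card = 4 ∧
      rs A (∑ x ∈ S', χ x) = 0 ∧ (∀ x ∈ S', ∀ y ∈ S', χ x + χ y ≠ 0) ∧
      ∑ x ∈ S', χ x = ∑ k, χ (t k) := by
  classical
  have hinj : Injective t := hAlt.inj hne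
  obtain ⟨S, hS⟩ : ∃ S : Finset (Fin n), S = (Finset.univ.filter fun k => χ (t k) ≠ 0).map
    ⟨t, hinj⟩ := ⟨_, rfl⟩
  have hsum : ∑ x ∈ S, χ x = ∑ k, χ (t k) := by
    rw [hS, Finset.sum_map]
    change ∑ k ∈ Finset.univ.filter (fun k => χ (t k) ≠ 0), χ (t k) = _
    exact Finset.sum_filter_ne_zero _
  have hS0 : ∀ x ∈ S, χ x ≠ 0 := by
    intro x hx
    rw [hS] at hx
    obtain ⟨k, hk, rfl⟩ := Finset.mem_map.1 hx
    exact (Finset.mem_filter.1 hk).2
  have heven : Even S.card := by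
    rw [hS, Finset.card_map]
    have h1 := even_zero hK hA hb hAlt hL hne
    have h2 := Finset.card_filter_add_card_filter_not (s := (Finset.univ : Finset κ))
      (fun k => χ (t k) = 0)
    rw [Finset.card_univ] at h2
    rw [← h2] at hκ
    exact (Nat.even_add.1 hκ).1 h1
  have hrs := rs_ne hb hL hne
  rw [← hsum] at hrs ⊢
  exact even_rel (chars hA hb hσ) h8 hS0 heven hrs

/-- the possible weights -/
def Wt3' (χ : Fin n → (A.ZA →ₗ[ℚ] ℂ)) (T : Finset (Fin n))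
    (b : Basis (Fin n) ℂ (ℂ ⊗[ℚ] A.H1)) (Ψ : MultilinearMap ℂ (fun _ : κ => ℂ ⊗[ℚ] A.H1) ℂ) :
    Prop := ∀ t : κ → Fin n, Ψ (fun l => b (t l)) ≠ 0 → ∑ k, χ (t k) = 0 ∨
      ∑ k, χ (t k) = ∑ x ∈ T, χ x ∨ ∑ k, χ (t k) = -∑ x ∈ T, χ x

theorem Wt3'.prop (W : Wt3' χ T b Ψ)
    (hb : ∀ k (R : A.ZA), (R : Module.End ℚ A.H1).baseChange ℂ (b k) = χ k R • b k)
    (R R' : A.ZA) : (∑ t ∈ T, χ t) R' • DD ((R : Module.End ℚ A.H1).baseChange ℂ) Ψ =
      (∑ t ∈ T, χ t) R • DD ((R' : Module.End ℚ A.H1).baseChange ℂ) Ψ := by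
  refine Basis.ext_multilinear (fun _ => b) fun t => ?_
  rw [MultilinearMap.smul_apply, MultilinearMap.smul_apply, wt hb, wt hb, smul_eq_mul, smul_eq_mul]
  by_cases h0 : Ψ (fun l => b (t l)) = 0
  · rw [h0]
    ring
  · rcases W t h0 with h | h | h
    · rw [h, LinearMap.zero_apply, LinearMap.zero_apply]
      ring
    · rw [h]
      ring
    · rw [h, LinearMap.neg_apply, LinearMap.neg_apply]
      ring

/-- The two cases. -/
theorem alternative' (hK : Kill0 A) (hA : CMIV A)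
    (hb : ∀ k (R : A.ZA), (R : Module.End ℚ A.H1).baseChange ℂ (b k) = χ k R • b k)
    (hσ : ∀ k, χ (σ k) = -χ k)
    (h8 : ∀ S : Finset (Fin n), (∀ x ∈ S, χ x ≠ 0) → S.card ≤ 8)
    (hκ : Even (Fintype.card κ))
    {φ : A.H1 [⋀^κ]→ₗ[ℚ] ℚ} (hL : ∀ X ∈ A.LA, dK X φ = 0) :
    (∀ R ∈ A.ZA, dK R φ = 0) ∨ ∃ T : Finset (Fin n), Rel χ σ T ∧ Wt3' χ T b (cm φ) ∧
      ∃ P : A.ZA, ∃ c : ℂ, c ≠ 0 ∧ ∀ k, χ k P = sg χ T k * c := by
  classical
  have hL' : ∀ X ∈ A.LA, DD (X.baseChange ℂ) (cm φ) = 0 := fun X hX => by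
    rw [← cm_der, hL X hX, cm_zero]
  have hAlt := alt_cm φ
  by_cases h : ∀ t : κ → Fin n, cm φ (fun l => b (t l)) ≠ 0 → ∑ k, χ (t k) = 0
  · left
    intro R hR
    apply cm_inj
    rw [cm_zero, cm_der]
    refine Basis.ext_multilinear (fun _ => b) fun t => ?_
    rw [MultilinearMap.zero_apply]
    have h1 := wt (Ψ := cm φ) hb ⟨R, hR⟩ t
    refine h1.trans ?_
    by_cases h0 : cm φ (fun l => b (t l)) = 0
    · rw [h0, mul_zero]
    · rw [h t h0, LinearMap.zero_apply, zero_mul]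
  · right
    push Not at h
    obtain ⟨t₀, hne, hsum⟩ := h
    obtain ⟨T, f1, f2, f3, f4, hTs⟩ :=
      (weights' hK hA hb hσ h8 hκ hAlt hL' hne).resolve_left hsum
    have hT0 : ∑ t ∈ T, χ t ≠ 0 := by rw [hTs]; exact hsum
    have H := chars hA hb hσ
    obtain ⟨hall, hoth⟩ := H.other (T := T) f1 f2 f3 f4 h8
    have HR : Rel χ σ T := ⟨hσ, f1, f2, f4, hall⟩
    have W : Wt3' χ T b (cm φ) := by
      intro t' hne'
      rcases weights' hK hA hb hσ h8 hκ hAlt hL' hne' with h0 | ⟨S', g1, g2, g3, g4, g5⟩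
      · exact Or.inl h0
      · rw [← g5]
        rcases hoth _ g1 g2 g3 with h1 | h1 | h1
        · exact Or.inl h1
        · rw [h1]
          exact Or.inr (Or.inl rfl)
        · refine Or.inr (Or.inr ?_)
          rw [h1, Finset.sum_map, ← Finset.sum_neg_distrib]
          exact Finset.sum_congr rfl fun t _ => hσ t
    refine ⟨T, HR, W, ?_⟩
    obtain ⟨s, hs⟩ : ∃ s, (∑ t ∈ T, χ t) s ≠ 0 := by
      by_contra hcon
      push Not at hcon
      exact hT0 (LinearMap.ext hcon)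
    obtain ⟨v, hv⟩ : ∃ v, dK (s : Module.End ℚ A.H1) φ v ≠ 0 := by
      by_contra hcon
      push Not at hcon
      have h1 : dK (s : Module.End ℚ A.H1) φ = 0 := AlternatingMap.ext hcon
      have h2 := wt (Ψ := cm φ) hb s t₀
      rw [← cm_der, h1, cm_zero, ← hTs, MultilinearMap.zero_apply] at h2
      exact mul_ne_zero hs hne h2.symm
    have hid : ∀ R : A.ZA, (∑ t ∈ T, χ t) s * (dK (R : Module.End ℚ A.H1) φ v : ℚ) =
        (∑ t ∈ T, χ t) R * (dK (s : Module.End ℚ A.H1) φ v : ℚ) := by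
      intro R
      have h1 := W.prop hb R s
      rw [← cm_der, ← cm_der] at h1
      have h2 := congrArg (fun F : MultilinearMap ℂ (fun _ : κ => ℂ ⊗[ℚ] A.H1) ℂ =>
        F (fun l => (1 : ℂ) ⊗ₜ[ℚ] v l)) h1
      simp only [MultilinearMap.smul_apply, cm_one, smul_eq_mul] at h2
      exact h2
    let q : A.ZA →ₗ[ℚ] ℚ :=
      { toFun := fun R => dK (R : Module.End ℚ A.H1) φ v / dK (s : Module.End ℚ A.H1) φ v
        map_add' := fun R R' => by
          rw [← add_div, Submodule.coe_add, dK_add_left]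
        map_smul' := fun a R => by
          rw [smul_eq_mul, RingHom.id_apply, ← mul_div_assoc, Submodule.coe_smul, dK_smul_left] }
    obtain ⟨P, hP⟩ := HR.exists_P hb hs q (fun R => by
      have h1 := hid R
      have h2 : (q R : ℂ) = (dK (R : Module.End ℚ A.H1) φ v : ℚ) /
        (dK (s : Module.End ℚ A.H1) φ v : ℚ) := by
        rw [← Rat.cast_div]
        rfl
      have h3 : ((dK (s : Module.End ℚ A.H1) φ v : ℚ) : ℂ) ≠ 0 := Rat.cast_ne_zero.2 hv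
      rw [h2, div_mul_eq_mul_div, div_eq_iff h3, ← h1, mul_comm])
    exact ⟨P, _, inv_ne_zero (mul_ne_zero two_ne_zero hs), hP⟩

end Pool.Agent.H845.AC
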